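import Pool.Agent.H27.Ab.Cells

/-!
# The mean widths of the letters of a relation
-/

set_option autoImplicit false
set_option linter.unusedSectionVars false

namespace Pool.Agent.H27.Ab

open Pool.Agent.Q56.FD hiding Qb
open Pool.Agent.H27.K3 Pool.Agent.H27.Lin Pool.Agent.H27.Two IntermediateField

section Cells

variable {I : Type*} {q : ℕ} {w : I → ℕ} {γ : I → Qb} {lam : Qb → ℚ}

/-- the cell of a letter and its complex conjugate -/
noncomputable def pairCell (q : ℕ) (w : I → ℕ) (l : I × Qb) : Set (I × Qb) := {l, bar q w l}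

lemma pairCell_bar (hq : 0 < q) (l : I × Qb) : pairCell q w (bar q w l) = pairCell q w l := by
  classical
  rw [pairCell, pairCell, bar_bar hq, Set.pair_comm]

lemma pairCell_eq {l l' : I × Qb} (h : pairCell q w l = pairCell q w l') :
    l' = l ∨ l' = bar q w l := by
  have h1 : l' ∈ pairCell q w l := by
    rw [h]
    exact Set.mem_insert _ _
  exact h1

lemma hasFlips_pairs (hq : 0 < q) (hw : ∀ t, IsWeil q (w t) (γ t)) (h : PairFlips q w γ) :
    HasFlips q w γ (pairCell q w) := by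
  classical
  intro j
  by_cases hj : ∃ t z, IsConjRoot ℚ (γ t) z ∧ pairCell q w (t, z) = j
  · obtain ⟨t, z, hz, rfl⟩ := hj
    obtain ⟨σ, h1, h2⟩ := h t z hz
    have hz0 : z ≠ 0 := ((hw t).conj hz).ne_zero hq
    have hq0 : ((q : Qb) ^ w t) ≠ 0 := pow_ne_zero _ (by exact_mod_cast hq.ne')
    refine ⟨σ, fun s y hy => ⟨fun h3 => ?_, fun h3 => ?_⟩⟩
    · rcases pairCell_eq h3.symm with h4 | h4
      · obtain ⟨rfl, rfl⟩ := Prod.ext_iff.1 h4
        exact h1
      · obtain ⟨rfl, h5⟩ := Prod.ext_iff.1 h4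
        change y = (q : Qb) ^ w s / z at h5
        rw [h5, map_div₀, map_pow, map_natCast, h1]
    · refine h2 s y hy ?_
      rintro rfl
      constructor
      · rintro rfl
        exact h3 rfl
      · rintro rfl
        exact h3 (pairCell_bar hq (s, z))
  · refine ⟨RingHom.id Qb, fun s y hy => ⟨fun h3 => ?_, fun _ => rfl⟩⟩
    exact absurd ⟨s, y, hy, h3⟩ hj

lemma onePair_pairs : OnePairPerCell lam q w γ (pairCell q w) := by
  intro g t s y z _ _ h _ _
  rcases pairCell_eq h with h1 | h1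
  · obtain ⟨rfl, rfl⟩ := Prod.ext_iff.1 h1
    exact ⟨rfl, Or.inl rfl⟩
  · obtain ⟨rfl, h2⟩ := Prod.ext_iff.1 h1
    exact ⟨rfl, Or.inr h2⟩

/-- numbers of K3 type: every type is a cell -/
lemma hasFlips_k3 (hq : 0 < q) (hw : ∀ t, IsWeil q (w t) (γ t)) (h : MeetInReal γ) :
    HasFlips q w γ (Prod.fst : I × Qb → I) := by
  intro t
  obtain ⟨σ, h1, h2⟩ := signsIndependent_of hq hw h t
  refine ⟨(σ : Qb →+* Qb), fun s z hz => ⟨?_, fun h3 => h2 s h3 z hz⟩⟩
  rintro (rfl : s = t)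
  exact h1 z hz

lemma onePair_k3 (hq : 0 < q) (hw : ∀ t, IsWeil q (w t) (γ t))
    (h3 : ∀ t, IsK3Type lam q (w t) (γ t)) :
    OnePairPerCell lam q w γ (Prod.fst : I × Qb → I) := by
  rintro g t s y z hy hz (rfl : t = s) h1 h2
  refine ⟨rfl, ?_⟩
  have hconj : ∀ x, IsConjRoot ℚ (γ t) x → IsConjRoot ℚ (γ t) (g x) := by
    intro x hx
    let g' : Qb ≃ₐ[ℚ] Qb := AlgEquiv.ofBijective g.toRatAlgHom
      (AlgHom.normal_bijective ℚ Qb Qb _)
    exact hx.trans (isConjRoot_of_algEquiv x g')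
  have key : ∀ x, IsConjRoot ℚ (γ t) x → 2 * lam (g x) ≠ w t →
      g x = γ t ∨ g x = (q : Qb) ^ w t / γ t := by
    intro x hx h4
    by_contra h5
    rw [not_or] at h5
    exact h4 ((h3 t).2 _ (hconj x hx) h5.1 h5.2)
  have hγ0 : γ t ≠ 0 := (hw t).ne_zero hq
  have hq0 : ((q : Qb) ^ w t) ≠ 0 := pow_ne_zero _ (by exact_mod_cast hq.ne')
  have hbar : ∀ x, g ((q : Qb) ^ w t / x) = (q : Qb) ^ w t / g x := by
    intro x
    rw [map_div₀, map_pow, map_natCast]
  rcases key y hy h1 with h4 | h4 <;> rcases key z hz h2 with h5 | h5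
  · exact Or.inl (g.injective (h5.trans h4.symm))
  · refine Or.inr (g.injective ?_)
    rw [hbar, h4, h5]
  · refine Or.inr (g.injective ?_)
    rw [hbar, h4, h5, div_div_cancel₀ hq0]
  · exact Or.inl (g.injective (h5.trans h4.symm))

end Cells

section Mean

variable {I J : Type*} {p : ℕ} [Fact p.Prime] {a : ℕ} {ι : Qb →+* PadicAlgCl p} {lam : Qb → ℚ}
  {w : I → ℕ} {γ : I → Qb} {cell : I × Qb → J}

lemma finsum_cj (γ : Qb) (f : Qb → ℚ) :
    ∑ᶠ z ∈ {z | IsConjRoot ℚ γ z}, f z = ∑ z ∈ cj γ, f z := by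
  have h : {z | IsConjRoot ℚ γ z} = ((cj γ : Finset Qb) : Set Qb) := by
    ext z
    exact mem_cj.symm
  rw [h, finsum_mem_coe_finset]

/-- **The mean widths of the letters.** -/
theorem mean_le (ha : 0 < a) (hlam : ∀ z, (lam z : ℝ) = sl (p ^ a) ι z)
    (hw : ∀ t, IsWeil (p ^ a) (w t) (γ t)) (hf : HasFlips (p ^ a) w γ cell)
    (h1 : OnePairPerCell lam (p ^ a) w γ cell) {β : Qb} {i : ℕ} (hβ : IsWeil (p ^ a) i β)
    {D : ℚ} (hD : ∀ β', IsConjRoot ℚ β β' → width lam i β' ≤ D)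
    {L : List (I × Qb)} (hL : ∀ l ∈ L, IsConjRoot ℚ (γ l.1) l.2)
    (hex : IsExact (p ^ a) w i β L) (hno : NoDual (p ^ a) w L) :
    ((L.map Prod.fst).map fun t => meanWidth lam (w t) (γ t)).sum ≤ D := by
  classical
  obtain ⟨E, hfd, hE⟩ := exists_field ((L.map Prod.fst).toFinset.biUnion fun t => cj (γ t))
  have hE' : ∀ l ∈ L, ∀ z, IsConjRoot ℚ (γ l.1) z → z ∈ E := fun l hl z hz =>
    hE z (Finset.mem_biUnion.2 ⟨l.1, List.mem_toFinset.2 (List.mem_map.2 ⟨l, hl, rfl⟩),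
      mem_cj.2 hz⟩)
  have hcard : (0 : ℚ) < Fintype.card (E →ₐ[ℚ] Qb) := by
    exact_mod_cast Fintype.card_pos_iff.2 ⟨E.val⟩
  have hsum := Finset.sum_le_sum (s := (Finset.univ : Finset (E →ₐ[ℚ] Qb))) fun e _ =>
    sum_dev_le ha hlam hw hf h1 hβ hD hL hex hno (lft E e).symm
  rw [Finset.sum_const, Finset.card_univ, nsmul_eq_mul] at hsum
  refine le_of_mul_le_mul_left (le_trans (le_of_eq ?_) hsum) hcard
  clear hsum hex hno hE hD h1 hf
  induction L with
  | nil => simp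
  | cons l L ih =>
    have h2 := ih (fun l' hl' => hL l' (List.mem_cons_of_mem _ hl'))
      (fun l' hl' => hE' l' (List.mem_cons_of_mem _ hl'))
    have hl : IsConjRoot ℚ (γ l.1) l.2 := hL l List.mem_cons_self
    have hcj : cj l.2 = cj (γ l.1) := by
      ext z
      rw [mem_cj, mem_cj]
      exact ⟨fun h => hl.trans h, fun h => hl.symm.trans h⟩
    have hdeg : (minpoly ℚ l.2).natDegree = (minpoly ℚ (γ l.1)).natDegree := by
      rw [← card_cj, ← card_cj, hcj]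
    have hdeg0 : (0 : ℚ) < (minpoly ℚ (γ l.1)).natDegree := by exact_mod_cast deg_pos (γ l.1)
    have h3 := average E (γ := l.2) (fun z hz => hE' l List.mem_cons_self z (hl.trans hz))
      (fun z => |2 * lam z - (w l.1 : ℚ)|)
    rw [hcj, hdeg] at h3
    have h4 : (Fintype.card (E →ₐ[ℚ] Qb) : ℚ) * meanWidth lam (w l.1) (γ l.1) =
        ∑ e : E →ₐ[ℚ] Qb, |2 * lam ((lft E e).symm l.2) - (w l.1 : ℚ)| := by
      rw [meanWidth, finsum_cj, mul_div_assoc', div_eq_iff hdeg0.ne', mul_comm _ (_ : ℚ),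
        mul_comm (∑ e : E →ₐ[ℚ] Qb, _) _, h3, mul_comm]
      rfl
    simp only [List.map_cons, List.sum_cons, mul_add, Finset.sum_add_distrib]
    rw [h2, h4]

/-- the number of the letters of a type -/
lemma two_count_of_multi [DecidableEq I] {q : ℕ} (hq : 0 < q) (hw : ∀ t, IsWeil q (w t) (γ t))
    {M : I → ℕ} {L : List (I × Qb)} (hL : ∀ l ∈ L, IsConjRoot ℚ (γ l.1) l.2)
    (hno : NoDual q w L) (h : Multi M L) (t : I) :
    2 * (L.map Prod.fst).count t ≤ (minpoly ℚ (γ t)).natDegree * M t := by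
  classical
  have h0 : ∀ ζ : Qb, L.count (t, ζ) ≤ M t := by
    intro ζ
    by_cases hm : (t, ζ) ∈ L
    · have h3 := h (Classical.decEq _) (t, ζ) hm
      refine le_trans (le_of_eq ?_) h3
      exact count_inst _ _ inferInstance inferInstance (t, ζ) L
    · rw [List.count_eq_zero_of_not_mem hm]
      exact Nat.zero_le _
  have h1 : ∀ ζ ∈ cj (γ t), |cnt q w L t ζ AlgEquiv.refl| ≤ (M t : ℚ) := by
    intro ζ _
    rw [cnt_eq_count, abs_le]
    have h2 : (L.count (t, ζ) : ℚ) ≤ M t := by exact_mod_cast h0 ζ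
    have h3 : (L.count (t, (q : Qb) ^ w t / ζ) : ℚ) ≤ M t := by exact_mod_cast h0 _
    have h4 : (0 : ℚ) ≤ (L.count (t, ζ) : ℚ) := Nat.cast_nonneg _
    have h5 : (0 : ℚ) ≤ (L.count (t, (q : Qb) ^ w t / ζ) : ℚ) := Nat.cast_nonneg _
    constructor <;> linarith
  have h2 : 2 * ((L.map Prod.fst).count t : ℚ) ≤ (minpoly ℚ (γ t)).natDegree * (M t : ℚ) := by
    refine (two_count_le hq hw hL hno t).trans ((Finset.sum_le_sum h1).trans ?_)
    rw [Finset.sum_const, card_cj, nsmul_eq_mul]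
  exact_mod_cast h2

/-- **The list of types is short.** -/
theorem isShortOnAverage (ha : 0 < a) (hlam : ∀ z, (lam z : ℝ) = sl (p ^ a) ι z)
    (hw : ∀ t, IsWeil (p ^ a) (w t) (γ t)) (hf : HasFlips (p ^ a) w γ cell)
    (h1 : OnePairPerCell lam (p ^ a) w γ cell) {c : I → ℚ} (hc : IsWidth lam w γ c)
    {β : Qb} {i : ℕ} (hβ : IsWeil (p ^ a) i β)
    {D : ℚ} (hD : ∀ β', IsConjRoot ℚ β β' → width lam i β' ≤ D)
    {L : List (I × Qb)} (hL : ∀ l ∈ L, IsConjRoot ℚ (γ l.1) l.2)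
    (hex : IsExact (p ^ a) w i β L) (hno : NoDual (p ^ a) w L) :
    IsShortOnAverage lam w γ c D (L.map Prod.fst) := by
  have hq : 0 < p ^ a := pow_pos (Fact.out : p.Prime).pos a
  refine ⟨mean_le ha hlam hw hf h1 hβ hD hL hex hno, ?_⟩
  exact @two_count_of_multi I w γ (fun a b => Classical.propDecidable (a = b)) (p ^ a) hq hw
    (fun t => ⌊D / c t⌋₊) L hL hno (multi_cells ha hlam hw hf h1 hc hβ hD hL hex hno)

lemma width_ne (ha : 0 < a) (hlam : ∀ z, (lam z : ℝ) = sl (p ^ a) ι z)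
    (hw : ∀ t, IsWeil (p ^ a) (w t) (γ t)) {c : I → ℚ} (hc : IsWidth lam w γ c) (t : I) :
    γ t ^ 2 ≠ ((p ^ a : ℕ) : Qb) ^ w t := by
  intro h
  have hq : 0 < p ^ a := pow_pos (Fact.out : p.Prime).pos a
  obtain ⟨hc0, z, hz, hcz⟩ := hc t
  obtain ⟨σ, hσ⟩ := isConjRoot_iff_exists_algEquiv.1 hz.symm
  have hz2 : z ^ 2 = ((p ^ a : ℕ) : Qb) ^ w t := by
    rw [← hσ, ← map_pow, h, map_pow, map_natCast]
  have hz0 : z ≠ 0 := ((hw t).conj hz).ne_zero hq
  have h1 := lam_pow hlam hz0 2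
  rw [hz2, lam_pow hlam (qb_ne p a), lam_q ha hlam] at h1
  rw [width] at hcz
  push_cast at h1
  rw [show 2 * lam z - (w t : ℚ) = 0 by linarith, abs_zero] at hcz
  exact hc0.ne hcz

end Mean

end Pool.Agent.H27.Ab
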