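import Pool.Agent.H27.Lin.Defs

/-!
# Partial complex conjugations: definitions
-/

set_option autoImplicit false

namespace Pool.Agent.H27.Ab

open Pool.Agent.H27.K3 Pool.Agent.H27.Lin

/-- The letters `(t, z)`, `z` a conjugate of `γ t`, are divided into cells. For every cell there is
an automorphism of the field of algebraic numbers which maps the numbers `z` of the letters of the
cell to their complex conjugates `q ^ w t / z` and fixes the numbers of all other letters. -/
def HasFlips {I J : Type*} (q : ℕ) (w : I → ℕ) (γ : I → Qb) (cell : I × Qb → J) : Prop :=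
  ∀ j, ∃ σ : Qb →+* Qb, ∀ t z, IsConjRoot ℚ (γ t) z →
    (cell (t, z) = j → σ z = (q : Qb) ^ w t / z) ∧ (cell (t, z) ≠ j → σ z = z)

/-- At every place above `p` every cell contains, up to complex conjugation, at most one letter
`(t, z)` such that the slope of `z` is not `w t / 2`. -/
def OnePairPerCell {I J : Type*} (lam : Qb → ℚ) (q : ℕ) (w : I → ℕ) (γ : I → Qb)
    (cell : I × Qb → J) : Prop :=
  ∀ (g : Qb →+* Qb) (t s : I) (y z : Qb), IsConjRoot ℚ (γ t) y → IsConjRoot ℚ (γ s) z →
    cell (t, y) = cell (s, z) → 2 * lam (g y) ≠ w t → 2 * lam (g z) ≠ w s →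
      s = t ∧ (z = y ∨ z = (q : Qb) ^ w t / y)

/-- the width `c t` is the width of some conjugate of `γ t`, and it is positive -/
def IsWidth {I : Type*} (lam : Qb → ℚ) (w : I → ℕ) (γ : I → Qb) (c : I → ℚ) : Prop :=
  ∀ t, 0 < c t ∧ ∃ z, IsConjRoot ℚ (γ t) z ∧ width lam (w t) z = c t

/-- For every conjugate `z` of every `γ t` there is an automorphism of the field of algebraic
numbers which maps `z` to its complex conjugate `q ^ w t / z` and fixes all other conjugates of
all the numbers, except for this complex conjugate. -/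
def PairFlips {I : Type*} (q : ℕ) (w : I → ℕ) (γ : I → Qb) : Prop :=
  ∀ t z, IsConjRoot ℚ (γ t) z → ∃ σ : Qb →+* Qb, σ z = (q : Qb) ^ w t / z ∧
    ∀ s y, IsConjRoot ℚ (γ s) y → (s = t → y ≠ z ∧ y ≠ (q : Qb) ^ w t / z) → σ y = y

/-- The mean width: the mean value of the widths of the conjugates of `γ`. -/
noncomputable def meanWidth (lam : Qb → ℚ) (w : ℕ) (γ : Qb) : ℚ :=
  (∑ᶠ z ∈ {z | IsConjRoot ℚ γ z}, width lam w z) / (minpoly ℚ γ).natDegree

/-- The list `s` of types is short: the sum of the mean widths is at most `D`, and each type `t`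
occurs at most `deg (γ t) / 2 * ⌊D / c t⌋` times. -/
def IsShortOnAverage {I : Type*} (lam : Qb → ℚ) (w : I → ℕ) (γ : I → Qb) (c : I → ℚ) (D : ℚ)
    (s : List I) : Prop :=
  (s.map fun t => meanWidth lam (w t) (γ t)).sum ≤ D ∧
    open Classical in ∀ t, 2 * s.count t ≤ (minpoly ℚ (γ t)).natDegree * ⌊D / c t⌋₊

end Pool.Agent.H27.Ab
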