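import Pool.Agent.H27.Ab.CellDefs
import Pool.Agent.H27.Ab.Split

/-!
# Partial complex conjugations: the letters of a relation
-/

set_option autoImplicit false
set_option linter.unusedSectionVars false

namespace Pool.Agent.H27.Ab

open Pool.Agent.Q56.FD hiding Qb
open Pool.Agent.H27.K3 Pool.Agent.H27.Lin Pool.Agent.H27.Two IntermediateField

/-- finitely many cells -/
lemma flips_finset {I J : Type*} {q : ℕ} {w : I → ℕ} {γ : I → Qb} {cell : I × Qb → J}
    (h : HasFlips q w γ cell) (S : Finset J) : ∃ σ : Qb →+* Qb, ∀ t z, IsConjRoot ℚ (γ t) z →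
      (cell (t, z) ∈ S → σ z = (q : Qb) ^ w t / z) ∧ (cell (t, z) ∉ S → σ z = z) := by
  classical
  induction S using Finset.induction_on with
  | empty => exact ⟨RingHom.id Qb, fun t z _ => ⟨fun h => absurd h (Finset.notMem_empty _),
      fun _ => rfl⟩⟩
  | insert j S hj ih =>
    obtain ⟨σ, hσ⟩ := ih
    obtain ⟨ρ, hρ⟩ := h j
    refine ⟨σ.comp ρ, fun t z hz => ?_⟩
    obtain ⟨h1, h2⟩ := hσ t z hz
    obtain ⟨h3, h4⟩ := hρ t z hz
    constructor
    · intro h5
      change σ (ρ z) = _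
      by_cases h6 : cell (t, z) = j
      · rw [h3 h6, map_div₀, map_pow, map_natCast, h2 (h6 ▸ hj)]
      · rw [h4 h6, h1 ((Finset.mem_insert.1 h5).resolve_left h6)]
    · intro h5
      change σ (ρ z) = _
      rw [Finset.mem_insert, not_or] at h5
      rw [h4 h5.1, h2 h5.2]

section Main

variable {I J : Type*} {p : ℕ} [Fact p.Prime] {a : ℕ} {ι : Qb →+* PadicAlgCl p} {lam : Qb → ℚ}
  {w : I → ℕ} {γ : I → Qb} {cell : I × Qb → J}

/-- **The widths of the letters of a relation without dual pairs.** -/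
theorem sum_dev_le (ha : 0 < a) (hlam : ∀ z, (lam z : ℝ) = sl (p ^ a) ι z)
    (hw : ∀ t, IsWeil (p ^ a) (w t) (γ t)) (hf : HasFlips (p ^ a) w γ cell)
    (h1 : OnePairPerCell lam (p ^ a) w γ cell) {β : Qb} {i : ℕ} (hβ : IsWeil (p ^ a) i β)
    {D : ℚ} (hD : ∀ β', IsConjRoot ℚ β β' → width lam i β' ≤ D)
    {L : List (I × Qb)} (hL : ∀ l ∈ L, IsConjRoot ℚ (γ l.1) l.2)
    (hex : IsExact (p ^ a) w i β L) (hno : NoDual (p ^ a) w L) (g : Qb ≃ₐ[ℚ] Qb) :
    (L.map fun l => |2 * lam (g l.2) - (w l.1 : ℚ)|).sum ≤ D := by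
  classical
  have hq : 0 < p ^ a := pow_pos (Fact.out : p.Prime).pos a
  obtain ⟨j, hprod, hdeg⟩ := hex
  let S : Finset J := ((L.filter fun l => 2 * lam (g l.2) - (w l.1 : ℚ) < 0).map cell).toFinset
  have hS : ∀ j, j ∈ S ↔ ∃ l ∈ L, 2 * lam (g l.2) - (w l.1 : ℚ) < 0 ∧ cell l = j := by
    intro j
    rw [List.mem_toFinset, List.mem_map]
    constructor
    · rintro ⟨l, hl, rfl⟩
      rw [List.mem_filter, decide_eq_true_eq] at hl
      exact ⟨l, hl.1, hl.2, rfl⟩
    · rintro ⟨l, hl, h2, rfl⟩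
      exact ⟨l, List.mem_filter.2 ⟨hl, decide_eq_true h2⟩, rfl⟩
  obtain ⟨σ, hσ⟩ := flips_finset hf S
  let σ' : Qb ≃ₐ[ℚ] Qb := AlgEquiv.ofBijective σ.toRatAlgHom
    (AlgHom.normal_bijective ℚ Qb Qb _)
  have hσ' : ∀ z, σ' z = σ z := fun z => rfl
  have hterm : ∀ l ∈ L, 2 * lam ((σ'.trans g) l.2) - (w l.1 : ℚ) =
      |2 * lam (g l.2) - (w l.1 : ℚ)| := by
    intro l hl
    obtain ⟨t, z⟩ := l
    have hz : IsConjRoot ℚ (γ t) z := hL _ hl
    have hz0 : z ≠ 0 := ((hw t).conj hz).ne_zero hq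
    have hgz0 : g z ≠ 0 := (map_ne_zero g).2 hz0
    obtain ⟨h2, h3⟩ := hσ t z hz
    change 2 * lam (g (σ' z)) - (w t : ℚ) = |2 * lam (g z) - (w t : ℚ)|
    rw [hσ']
    by_cases hj : cell (t, z) ∈ S
    · rw [h2 hj, map_div₀, map_pow, map_natCast, lam_dual ha hlam hgz0]
      by_cases h0 : 2 * lam (g z) = w t
      · rw [h0, sub_self, abs_zero]
        linarith
      obtain ⟨⟨s, y⟩, hl', h4, h5⟩ := (hS _).1 hj
      have hy : IsConjRoot ℚ (γ s) y := hL _ hl'
      change 2 * lam (g y) - (w s : ℚ) < 0 at h4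
      obtain ⟨hts, h7⟩ := h1 (g : Qb →+* Qb) s t y z hy hz h5 (fun h => by
        change 2 * lam (g y) = w s at h
        linarith) h0
      subst hts
      rcases h7 with rfl | h7
      · rw [abs_of_neg h4]
        ring
      · exact absurd (show (t, ((p ^ a : ℕ) : Qb) ^ w t / y) ∈ L by rw [← h7]; exact hl)
          (hno (t, y) hl')
    · rw [h3 hj, abs_of_nonneg]
      by_contra h4
      exact hj ((hS _).2 ⟨(t, z), hl, not_le.1 h4, rfl⟩)
  have h2 := relation_slopes ha hlam hw hβ hL hprod hdeg (σ'.trans g)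
  rw [List.map_congr_left hterm] at h2
  have h3 := hD ((σ'.trans g) β) (isConjRoot_of_algEquiv β _)
  rw [width] at h3
  have h4 := neg_abs_le (2 * lam ((σ'.trans g) β) - (i : ℚ))
  linarith

/-- the multiplicities -/
theorem multi_cells (ha : 0 < a) (hlam : ∀ z, (lam z : ℝ) = sl (p ^ a) ι z)
    (hw : ∀ t, IsWeil (p ^ a) (w t) (γ t)) (hf : HasFlips (p ^ a) w γ cell)
    (h1 : OnePairPerCell lam (p ^ a) w γ cell) {c : I → ℚ} (hc : IsWidth lam w γ c)
    {β : Qb} {i : ℕ} (hβ : IsWeil (p ^ a) i β)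
    {D : ℚ} (hD : ∀ β', IsConjRoot ℚ β β' → width lam i β' ≤ D)
    {L : List (I × Qb)} (hL : ∀ l ∈ L, IsConjRoot ℚ (γ l.1) l.2)
    (hex : IsExact (p ^ a) w i β L) (hno : NoDual (p ^ a) w L) :
    Multi (fun t => ⌊D / c t⌋₊) L := by
  intro inst l hl
  obtain ⟨t, ζ⟩ := l
  obtain ⟨hc0, z, hz, hcz⟩ := hc t
  obtain ⟨g, hg⟩ := isConjRoot_iff_exists_algEquiv.1
    ((show IsConjRoot ℚ (γ t) ζ from hL _ hl).symm.trans hz)
  have hg' : g.symm ζ = z := by
    rw [← hg, AlgEquiv.symm_apply_apply]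
  have h2 := sum_dev_le ha hlam hw hf h1 hβ hD hL hex hno g.symm
  have h3 : (L.count (t, ζ) : ℚ) * c t ≤
      (L.map fun l => |2 * lam (g.symm l.2) - (w l.1 : ℚ)|).sum := by
    clear h2 hex hno hL hl
    induction L with
    | nil => simp
    | cons l L ih =>
      rw [List.map_cons, List.sum_cons, List.count_cons]
      by_cases h4 : l = (t, ζ)
      · subst h4
        rw [if_pos (beq_self_eq_true _)]
        change ((L.count (t, ζ) + 1 : ℕ) : ℚ) * c t ≤ |2 * lam (g.symm ζ) - (w t : ℚ)| + _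
        rw [hg']
        change width lam (w t) z = c t at hcz
        rw [width] at hcz
        rw [hcz]
        push_cast
        linarith
      · rw [if_neg (by rw [beq_iff_eq]; exact h4), add_zero]
        have h5 := abs_nonneg (2 * lam (g.symm l.2) - (w l.1 : ℚ))
        linarith
  refine Nat.le_floor ?_
  rw [le_div_iff₀ hc0]
  exact h3.trans h2

end Main

end Pool.Agent.H27.Ab
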