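import Pool.Agent.H27.Two.Defs

/-!
# Products with abelian varieties: definitions
-/

set_option autoImplicit false

open CategoryTheory AlgebraicGeometry

universe u v

namespace Pool.Agent.H27.Ab

open Pool.Agent.H914 Pool.Agent.H914.VarClass Pool.Agent.H914.VarClass.Obj
  Pool.Agent.H914.WeilCohomology Pool.Agent.Q56.FE Pool.Agent.Q56.FR Pool.Agent.H27.K3

variable {k : Type u} [Field k] {𝒱 : VarClass k}

/-- `A` has a multiplication `m : A × A → A` with a two-sided unit `e`, which is a point. -/
def HasMultiplication (A : 𝒱.Obj) : Prop :=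
  ∃ (m : A.prod A ⟶ A) (P : 𝒱.Obj) (u : A ⟶ P) (e : P ⟶ A), P.dim = 0 ∧
    lift (𝟙 A) (u ≫ e) ≫ m = 𝟙 A ∧ lift (u ≫ e) (𝟙 A) ≫ m = 𝟙 A

variable {ops : CycleOps 𝒱} {W : WeilCohomology.{u, v} ops} {q : ℕ}

/-- The cohomology ring of `A` is generated by the classes of cycles and by the generalised
eigenvectors of the Frobenius endomorphism of degree one for the conjugates of `γ`. -/
def IsIsotypic (F : FrobeniusOver W q) (τ : Qb →+* W.K) (γ : Qb) (A : 𝒱.Obj) : Prop :=
  generated (algClass W A ∪ {x | ∃ z : Qb, IsConjRoot ℚ γ z ∧ x ∈ genPart F A (τ z) 1}) = Set.univ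

/-- In the list `s` each `t` occurs at most `M t` times. -/
def IsBounded {I : Type*} (M : I → ℕ) (s : List I) : Prop :=
  open Classical in ∀ t, s.count t ≤ M t

/-- The generators: the algebraic classes on `V`, the pull-backs of the generalised Tate classes
of the products of `Z` with at most `M t` factors `A t` for every `t`, and the pull-backs of the
generalised Tate classes of codimension one of the varieties `A t`. -/
def powerGenerators {I : Type*} (F : FrobeniusOver W q) (A : I → 𝒱.Obj) (M : I → ℕ)
    (Z V : 𝒱.Obj) : Set (W.H V) :=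
  algClass W V ∪ {x | ∃ s : List I, IsBounded M s ∧ ∃ (f : V ⟶ prodL Z (s.map A)) (j : ℕ),
      x ∈ W.map f '' tateClasses F (prodL Z (s.map A)) j} ∪
    {x | ∃ (t : I) (f : V ⟶ A t), x ∈ W.map f '' tateClasses F (A t) 1}

/-- Let `V` be the product of `Z` with arbitrarily many factors `A t`, `t ∈ I`. All generalised
Tate classes on `V` are polynomials in the generators. So if the strong Tate conjecture holds for
divisors on the varieties `A t`, and for the products of `Z` with at most `M t` factors `A t` for
every `t`, then it holds for `V` in all codimensions, and so does the full Tate conjecture (some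
cycles form a basis of the Tate classes over the coefficient field, and rationally of the classes
of all cycles). -/
def TateFromPowers {I : Type*} (F : FrobeniusOver W q) (A : I → 𝒱.Obj) (M : I → ℕ)
    (Z : 𝒱.Obj) : Prop :=
  ∀ s : List I,
    (∀ j, tateClasses F (prodL Z (s.map A)) j ⊆
      generated (powerGenerators F A M Z (prodL Z (s.map A)))) ∧
    ((∀ s' : List I, IsBounded M s' → ∀ j, TateHolds F (prodL Z (s'.map A)) j) →
      (∀ t, TateHolds F (A t) 1) →
        ∀ j, TateHolds F (prodL Z (s.map A)) j ∧ FullTate F (prodL Z (s.map A)) j)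

end Pool.Agent.H27.Ab
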