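import Pool.Agent.H27.Ab.Recolor
import Pool.Agent.H27.Ab.Defs

/-!
# The classes of degree one are additive
-/

set_option autoImplicit false
set_option linter.unusedSectionVars false

open CategoryTheory AlgebraicGeometry

universe u v

namespace Pool.Agent.H27.Ab

open Pool.Agent.H914 hiding ev wt
open Pool.Agent.H447 Pool.Agent.H914.VarClass Pool.Agent.H914.VarClass.Obj
  Pool.Agent.H914.WeilCohomology

variable {k : Type u} [Field k] {𝒱 : VarClass k} {ops : CycleOps 𝒱}

variable {W : WeilCohomology.{u, v} ops} {A B : 𝒱.Obj}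

/-- the Künneth formula in degree one -/
lemma kunneth_one {x : W.H (A.prod B)} (hx : x ∈ W.gr (A.prod B) 1) :
    ∃ a ∈ W.gr A 1, ∃ b ∈ W.gr B 1, x = W.map (fst A B) a + W.map (snd A B) b := by
  have key : ∀ y : W.H (A.prod B), ∃ a ∈ W.gr A 1, ∃ b ∈ W.gr B 1,
      Pool.Agent.H914.proj (W.isInternal (A.prod B)) 1 y =
        W.map (fst A B) a + W.map (snd A B) b := by
    refine W.kunneth_induction ?_ ?_
    · rintro y y' ⟨a, ha, b, hb, h⟩ ⟨a', ha', b', hb', h'⟩
      refine ⟨a + a', Submodule.add_mem _ ha ha', b + b', Submodule.add_mem _ hb hb', ?_⟩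
      rw [map_add, h, h', map_add, map_add]
      abel
    · intro i j a ha b hb
      have hab : W.map (fst A B) a * W.map (snd A B) b ∈ W.gr (A.prod B) (i + j) :=
        W.mul_mem (W.map_mem _ ha) (W.map_mem _ hb)
      by_cases hij : i + j = 1
      · rw [hij] at hab
        rw [Pool.Agent.H914.proj_same _ hab]
        rcases Nat.eq_zero_or_pos i with rfl | hi
        · obtain rfl : j = 1 := by omega
          rw [W.gr_zero, Submodule.mem_span_singleton] at ha
          obtain ⟨c, rfl⟩ := ha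
          refine ⟨0, Submodule.zero_mem _, c • b, Submodule.smul_mem _ _ hb, ?_⟩
          rw [map_smul, map_one, smul_mul_assoc, one_mul, map_zero, zero_add, map_smul]
        · obtain rfl : i = 1 := by omega
          obtain rfl : j = 0 := by omega
          rw [W.gr_zero, Submodule.mem_span_singleton] at hb
          obtain ⟨c, rfl⟩ := hb
          refine ⟨c • a, Submodule.smul_mem _ _ ha, 0, Submodule.zero_mem _, ?_⟩
          rw [map_smul, map_one, mul_smul_comm, mul_one, map_zero, add_zero, map_smul]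
      · refine ⟨0, Submodule.zero_mem _, 0, Submodule.zero_mem _, ?_⟩
        rw [Pool.Agent.H914.proj_ne _ hab hij, map_zero, map_zero, add_zero]
  obtain ⟨a, ha, b, hb, h⟩ := key x
  rw [Pool.Agent.H914.proj_same _ hx] at h
  exact ⟨a, ha, b, hb, h⟩

/-- the classes of degree one of a variety with a multiplication are additive -/
lemma isAdd_one (h : HasMultiplication A) : IsAdd W A 1 := by
  obtain ⟨m, P, u, e, hP, h1, h2⟩ := h
  refine ⟨m, fun x hx => ?_⟩
  obtain ⟨a, ha, b, hb, hab⟩ := kunneth_one (W.map_mem m hx)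
  have hzero : ∀ y ∈ W.gr A 1, W.map (u ≫ e) y = 0 := by
    intro y hy
    rw [W.map_comp]
    have h3 : W.map e y ∈ W.gr P 1 := W.map_mem e hy
    rw [W.gr_eq_bot P 1 (by rw [hP]; norm_num), Submodule.mem_bot] at h3
    rw [h3, map_zero]
  have e1 : x = a := by
    have h3 := congrArg (fun j => W.map j x) h1
    change W.map (lift (𝟙 A) (u ≫ e) ≫ m) x = W.map (𝟙 A) x at h3
    rw [W.map_comp, hab, map_add, ← W.map_comp, ← W.map_comp, W.map_id] at h3
    rw [← h3]
    have h4 : W.map (lift (𝟙 A) (u ≫ e) ≫ fst A A) a = a :=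
      (congrArg (fun j => W.map j a) (lift_fst (𝟙 A) (u ≫ e))).trans (W.map_id A a)
    have h5 : W.map (lift (𝟙 A) (u ≫ e) ≫ snd A A) b = 0 :=
      (congrArg (fun j => W.map j b) (lift_snd (𝟙 A) (u ≫ e))).trans (hzero b hb)
    rw [h4, h5, add_zero]
  have e2 : x = b := by
    have h3 := congrArg (fun j => W.map j x) h2
    change W.map (lift (u ≫ e) (𝟙 A) ≫ m) x = W.map (𝟙 A) x at h3
    rw [W.map_comp, hab, map_add, ← W.map_comp, ← W.map_comp, W.map_id] at h3
    rw [← h3]
    have h4 : W.map (lift (u ≫ e) (𝟙 A) ≫ snd A A) b = b :=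
      (congrArg (fun j => W.map j b) (lift_snd (u ≫ e) (𝟙 A))).trans (W.map_id A b)
    have h5 : W.map (lift (u ≫ e) (𝟙 A) ≫ fst A A) a = 0 :=
      (congrArg (fun j => W.map j a) (lift_fst (u ≫ e) (𝟙 A))).trans (hzero a ha)
    rw [h4, h5, zero_add]
  rw [hab, ← e1, ← e2]

end Pool.Agent.H27.Ab
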