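import Pool.Agent.H27.Ab.Proj

/-!
# Separating the factors of a group variety
-/

set_option autoImplicit false
set_option linter.unusedSectionVars false

open CategoryTheory AlgebraicGeometry

universe u v

namespace Pool.Agent.H27.Ab

open Pool.Agent.H914 hiding ev wt
open Pool.Agent.H447 Pool.Agent.H914.VarClass Pool.Agent.H914.VarClass.Obj
  Pool.Agent.H914.WeilCohomology Pool.Agent.H281R3.HT Pool.Agent.W534
  Pool.Agent.W458.RK Pool.Agent.W458.MF Pool.Agent.W536.RR Pool.Agent.Y133.Half
open Pool.Agent.Q56.FD hiding Qb labs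
open Pool.Agent.Q56.FE Pool.Agent.Q56.FR Pool.Agent.H27.K3 Pool.Agent.H27.Lin Pool.Agent.H27.Two

variable {k : Type u} [Field k] {𝒱 : VarClass k} {ops : CycleOps 𝒱}

variable {W : WeilCohomology.{u, v} ops} {p : ℕ} [Fact p.Prime] {a : ℕ} {I : Type*}
  {F : FrobeniusOver W (p ^ a)} {w : I → ℕ} {γ : I → Qb}
  {τ : Qb →+* W.K} {Z V V' Y B : 𝒱.Obj} {A : I → 𝒱.Obj}
  {𝒜 : ∀ V : 𝒱.Obj, Submodule W.K (W.H V)}

/-- a class on `A t` with its number and its colour -/
structure PL (W : WeilCohomology.{u, v} ops) (A : I → 𝒱.Obj) where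
  t : I
  z : Qb
  x : W.H (A t)
  c : ℕ

/-- the class is a generalised eigenvector -/
def PL.Ok (F : FrobeniusOver W (p ^ a)) (w : I → ℕ) (γ : I → Qb) (τ : Qb →+* W.K)
    (e : PL W A) : Prop :=
  IsConjRoot ℚ (γ e.t) e.z ∧ e.x ∈ W.gr (A e.t) (w e.t) ∧
    e.x ∈ (fr F (A e.t)).maxGenEigenspace (τ e.z)

/-- a morphism for every type and every colour -/
abbrev Pm (A : I → 𝒱.Obj) (V : 𝒱.Obj) := ∀ t : I, ℕ → Option (V ⟶ A t)

/-- the pull-back of a class -/
noncomputable def oval (o : Option (V ⟶ B)) (x : W.H B) : W.H V := o.elim 0 fun h => W.map h x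

/-- the value of a letter -/
noncomputable def pval (g : Pm A V) (e : PL W A) : W.H V := oval (g e.t e.c) e.x

/-- the value of a word -/
noncomputable def pword (g : Pm A V) (D : List (PL W A)) : W.H V := (D.map (pval g)).prod

lemma pword_nil (g : Pm A V) : pword g ([] : List (PL W A)) = 1 := rfl

lemma pword_cons (g : Pm A V) (e : PL W A) (D : List (PL W A)) :
    pword g (e :: D) = pval g e * pword g D := by
  rw [pword, List.map_cons, List.prod_cons]
  rfl

lemma pword_append (g : Pm A V) (D D' : List (PL W A)) :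
    pword g (D ++ D') = pword g D * pword g D' := by
  rw [pword, List.map_append, List.prod_append]
  rfl

/-- `A` has a multiplication for which the classes of degree `n` are additive -/
def IsAdd (W : WeilCohomology.{u, v} ops) (A : 𝒱.Obj) (n : ℕ) : Prop :=
  ∃ m : A.prod A ⟶ A, ∀ x ∈ W.gr A n, W.map m x = W.map (fst A A) x + W.map (snd A A) x

/-- the sum of a morphism and the second projection -/
noncomputable def plus (m : B.prod B ⟶ B) (o : Option (V ⟶ B)) : V.prod B ⟶ B :=
  o.elim (snd V B) fun h => lift (fst V B ≫ h) (snd V B) ≫ m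

lemma map_plus {m : B.prod B ⟶ B} {x : W.H B}
    (hx : W.map m x = W.map (fst B B) x + W.map (snd B B) x) (o : Option (V ⟶ B)) :
    W.map (plus m o) x = W.map (fst V B) (oval o x) + W.map (snd V B) x := by
  cases o with
  | none =>
    change W.map (snd V B) x = W.map (fst V B) 0 + _
    rw [map_zero, zero_add]
  | some h =>
    change W.map (lift (fst V B ≫ h) (snd V B) ≫ m) x = W.map (fst V B) (W.map h x) + _
    rw [W.map_comp, hx, map_add, ← W.map_comp, ← W.map_comp, ← W.map_comp]
    congr 1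
    · exact congrArg (fun j => W.map j x) (lift_fst _ _)
    · exact congrArg (fun j => W.map j x) (lift_snd _ _)

/-- the partial Frobenius endomorphism -/
noncomputable def pf (F : FrobeniusOver W (p ^ a)) (V B : 𝒱.Obj) : V.prod B ⟶ V.prod B :=
  lift (fst V B) (snd V B ≫ F.Fr B)

lemma pf_fst (u : W.H V) : W.map (pf F V B) (W.map (fst V B) u) = W.map (fst V B) u := by
  rw [← W.map_comp]
  exact congrArg (fun j => W.map j u) (lift_fst _ _)

lemma pf_snd (x : W.H B) :
    W.map (pf F V B) (W.map (snd V B) x) = W.map (snd V B) (W.map (F.Fr B) x) := by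
  rw [← W.map_comp, ← W.map_comp]
  exact congrArg (fun j => W.map j x) (lift_snd _ _)

lemma fst_gen (u : W.H V) : W.map (fst V B) u ∈
    Module.End.maxGenEigenspace (W.map (pf F V B)).toLinearMap (τ 1) := by
  apply eig_mem_gen
  rw [τ.map_one, one_smul]
  exact pf_fst u

lemma snd_gen {x : W.H B} {ν : W.K} (hx : x ∈ (fr F B).maxGenEigenspace ν) :
    W.map (snd V B) x ∈ Module.End.maxGenEigenspace (W.map (pf F V B)).toLinearMap ν := by
  have h1 := gen_map (θ := (W.map (snd V B)).toLinearMap) (T := fr F B)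
    (T' := (W.map (pf F V B)).toLinearMap) (c := 1) (fun x => by
      rw [one_smul]
      exact pf_snd x) hx
  rwa [one_mul] at h1

lemma dec_fst {m : ℕ} {ζ : Qb} (u : W.H V) :
    Dec (W.map (pf F V B)) τ (p ^ a) m ζ (W.map (fst V B) u) (W.map (fst V B) u) 0 :=
  ⟨fst_gen u, Submodule.zero_mem _, by rw [sub_self, sub_zero]; exact Submodule.zero_mem _⟩

/-- all words of this shape lie in the system -/
def Gd (𝒜 : ∀ V : 𝒱.Obj, Submodule W.K (W.H V)) (x₀ : W.H Z) (D : List (PL W A)) : Prop :=
  ∀ (V : 𝒱.Obj) (f : V ⟶ Z) (g : Pm A V), W.map f x₀ * pword g D ∈ 𝒜 V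

/-- the new placement -/
noncomputable def newPm [DecidableEq I] (m : ∀ t, (A t).prod (A t) ⟶ A t) (g : Pm A V) (t : I)
    (c : ℕ) : Pm A (V.prod (A t)) := fun s k =>
  if H : t = s ∧ c = k then
    some (Eq.rec (motive := fun s _ => (V.prod (A t) ⟶ A s)) (plus (m t) (g t c)) H.1)
  else (g s k).map fun h => fst V (A t) ≫ h

/-- **Separating a letter.** -/
theorem unmerge [DecidableEq I] (h𝒜 : Good 𝒜) (ha : 0 < a)
    (hw : ∀ t, IsWeil (p ^ a) (w t) (γ t)) (hw0 : ∀ t, 0 < w t)
    (hm : ∀ t, IsAdd W (A t) (w t)) {x₀ : W.H Z} {D₁ D₂ : List (PL W A)} {e : PL W A}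
    (h1 : ∀ e' ∈ D₁, e'.Ok F w γ τ) (h2 : ∀ e' ∈ D₂, e'.Ok F w γ τ) (he : e.Ok F w γ τ)
    (hfree₁ : ∀ e' ∈ D₁, e'.t = e.t → e'.c = e.c → e'.z ≠ e.z)
    (hfree₂ : ∀ e' ∈ D₂, e'.t = e.t → e'.c = e.c → e'.z ≠ e.z)
    (h : Gd 𝒜 x₀ (D₁ ++ e :: D₂)) (c' : ℕ) : Gd 𝒜 x₀ (D₁ ++ ⟨e.t, e.z, e.x, c'⟩ :: D₂) := by
  intro V f g
  choose m hm using hm
  cases hgc : g e.t c' with
  | none =>
    have h3 : pval g (⟨e.t, e.z, e.x, c'⟩ : PL W A) = 0 := by
      change oval (g e.t c') e.x = 0
      rw [hgc]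
      rfl
    rw [pword_append, pword_cons, h3, zero_mul, mul_zero, mul_zero]
    exact Submodule.zero_mem _
  | some j =>
    have hq : 1 < p ^ a := Nat.one_lt_pow ha.ne' (Fact.out : p.Prime).one_lt
    have hζ : IsWeil (p ^ a) (w e.t) e.z := (hw e.t).conj he.1
    let g' : Pm A (V.prod (A e.t)) := newPm m g e.t e.c
    -- the letters
    have hlet : ∀ e' : PL W A, e'.Ok F w γ τ → (e'.t = e.t → e'.c = e.c → e'.z ≠ e.z) →
        Dec (W.map (pf F V (A e.t))) τ (p ^ a) (w e.t) e.z (pval g' e')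
          (W.map (fst V (A e.t)) (pval g e')) 0 := by
      intro e' hok hne
      by_cases H : e.t = e'.t ∧ e.c = e'.c
      · obtain ⟨t', z', x', k'⟩ := e'
        obtain ⟨H1, H2⟩ := H
        change e.t = t' at H1
        change e.c = k' at H2
        subst H1 H2
        have h3 : pval g' (⟨e.t, z', x', e.c⟩ : PL W A) =
            W.map (fst V (A e.t)) (pval g (⟨e.t, z', x', e.c⟩ : PL W A)) +
              W.map (snd V (A e.t)) x' := by
          have h4 : g' e.t e.c = some (plus (m e.t) (g e.t e.c)) := dif_pos ⟨rfl, rfl⟩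
          change oval (g' e.t e.c) x' = _
          rw [h4]
          exact map_plus (hm e.t x' hok.2.1) (g e.t e.c)
        refine ⟨fst_gen _, Submodule.zero_mem _, ?_⟩
        rw [h3, add_sub_cancel_left, sub_zero]
        exact Submodule.subset_span ⟨z', w e.t, (hw e.t).conj hok.1, le_rfl, hne rfl rfl,
          snd_gen hok.2.2⟩
      · have h3 : pval g' e' = W.map (fst V (A e.t)) (pval g e') := by
          have h4 : g' e'.t e'.c = (g e'.t e'.c).map fun h => fst V (A e.t) ≫ h := dif_neg H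
          change oval (g' e'.t e'.c) e'.x = _
          rw [h4]
          change _ = W.map (fst V (A e.t)) (oval (g e'.t e'.c) e'.x)
          cases g e'.t e'.c with
          | none => exact (map_zero _).symm
          | some h => exact W.map_comp (fst V (A e.t)) h e'.x
        rw [h3]
        exact dec_fst _
    -- the words
    have hwd : ∀ D : List (PL W A), (∀ e' ∈ D, e'.Ok F w γ τ) →
        (∀ e' ∈ D, e'.t = e.t → e'.c = e.c → e'.z ≠ e.z) →
        Dec (W.map (pf F V (A e.t))) τ (p ^ a) (w e.t) e.z (pword g' D)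
          (W.map (fst V (A e.t)) (pword g D)) 0 := by
      intro D
      induction D with
      | nil =>
        intro _ _
        have h3 := dec_fst (F := F) (τ := τ) (V := V) (B := A e.t) (m := w e.t) (ζ := e.z) 1
        rw [map_one] at h3
        rw [pword_nil, pword_nil, map_one]
        exact h3
      | cons e' D ih =>
        intro hok hne
        have h3 := (hlet e' (hok e' List.mem_cons_self) (hne e' List.mem_cons_self)).mul hq
          (hw0 e.t) hζ (ih (fun e'' he'' => hok e'' (List.mem_cons_of_mem _ he''))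
            (fun e'' he'' => hne e'' (List.mem_cons_of_mem _ he'')))
        rw [mul_zero, zero_mul, add_zero, ← map_mul] at h3
        rw [pword_cons, pword_cons]
        exact h3
    have he' : Dec (W.map (pf F V (A e.t))) τ (p ^ a) (w e.t) e.z (pval g' e)
        (W.map (fst V (A e.t)) (pval g e)) (W.map (snd V (A e.t)) e.x) := by
      have h3 : pval g' e = W.map (fst V (A e.t)) (pval g e) + W.map (snd V (A e.t)) e.x := by
        have h4 : g' e.t e.c = some (plus (m e.t) (g e.t e.c)) := dif_pos ⟨rfl, rfl⟩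
        change oval (g' e.t e.c) e.x = _
        rw [h4]
        exact map_plus (hm e.t e.x he.2.1) (g e.t e.c)
      refine ⟨fst_gen _, snd_gen he.2.2, ?_⟩
      rw [h3, add_sub_cancel_left, sub_self]
      exact Submodule.zero_mem _
    have h3 := (dec_fst (F := F) (τ := τ) (V := V) (B := A e.t) (m := w e.t) (ζ := e.z)
      (W.map f x₀)).mul hq (hw0 e.t) hζ ((hwd D₁ h1 hfree₁).mul hq (hw0 e.t) hζ
        (he'.mul hq (hw0 e.t) hζ (hwd D₂ h2 hfree₂)))
    simp only [mul_zero, zero_mul, add_zero, zero_add] at h3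
    have h4 := h (V.prod (A e.t)) (fst V (A e.t) ≫ f) g'
    rw [W.map_comp, pword_append, pword_cons] at h4
    have h5 := h3.mem hq (hw0 e.t) hζ (fun x hx => h𝒜.map (pf F V (A e.t)) x hx) h4
    have h6 := h𝒜.map (lift (𝟙 V) j) _ h5
    have h7 : ∀ u : W.H V, W.map (lift (𝟙 V) j) (W.map (fst V (A e.t)) u) = u := by
      intro u
      rw [← W.map_comp]
      exact (congrArg (fun i => W.map i u) (lift_fst (𝟙 V) j)).trans (W.map_id V u)
    have h8 : W.map (lift (𝟙 V) j) (W.map (snd V (A e.t)) e.x) = W.map j e.x := by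
      rw [← W.map_comp]
      exact congrArg (fun i => W.map i e.x) (lift_snd (𝟙 V) j)
    rw [map_mul, map_mul, map_mul, h7, h7, h7, h8] at h6
    rw [pword_append, pword_cons]
    have h9 : pval g (⟨e.t, e.z, e.x, c'⟩ : PL W A) = W.map j e.x := by
      change oval (g e.t c') e.x = _
      rw [hgc]
      rfl
    rw [h9]
    exact h6

end Pool.Agent.H27.Ab
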