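import Pool.Agent.H27.Ab.Words

/-!
# The Tate conjecture from small powers
-/

set_option autoImplicit false
set_option linter.unusedSectionVars false

open CategoryTheory AlgebraicGeometry

universe u v

namespace Pool.Agent.H27.Ab

open Pool.Agent.H914 hiding ev wt
open Pool.Agent.H447 Pool.Agent.H914.VarClass Pool.Agent.H914.VarClass.Obj
  Pool.Agent.H914.WeilCohomology Pool.Agent.H281R3.HT Pool.Agent.W534
  Pool.Agent.W458.RK Pool.Agent.W458.MF Pool.Agent.W536.RR Pool.Agent.Y133.Half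
open Pool.Agent.Q56.FD hiding Qb labs
open Pool.Agent.Q56.FE Pool.Agent.Q56.FR Pool.Agent.H27.K3 Pool.Agent.H27.Lin Pool.Agent.H27.Two

variable {k : Type u} [Field k] {𝒱 : VarClass k} {ops : CycleOps 𝒱}

variable {W : WeilCohomology.{u, v} ops} {p : ℕ} [Fact p.Prime] {a : ℕ} {I : Type*}
  {F : FrobeniusOver W (p ^ a)} {γ : I → Qb}
  {τ : Qb →+* W.K} {Z : 𝒱.Obj} {A : I → 𝒱.Obj} {M : I → ℕ}

lemma powerGens_map {V V' : 𝒱.Obj} (f : V ⟶ V') {x : W.H V'}
    (hx : x ∈ powerGenerators F A M Z V') : W.map f x ∈ powerGenerators F A M Z V := by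
  rcases hx with (⟨j, hc⟩ | ⟨s, hs, g, j, y, hy, rfl⟩) | ⟨t, g, y, hy, rfl⟩
  · exact Or.inl (Or.inl ⟨j, cyc_map f hc⟩)
  · exact Or.inl (Or.inr ⟨s, hs, f ≫ g, j, y, hy, W.map_comp f g y⟩)
  · exact Or.inr ⟨t, f ≫ g, y, hy, W.map_comp f g y⟩

lemma powerGens_even {V : 𝒱.Obj} {x : W.H V} (hx : x ∈ powerGenerators F A M Z V) :
    ∃ n : ℕ, x ∈ W.gr V (2 * n) := by
  rcases hx with (⟨j, hc⟩ | ⟨s, hs, g, j, y, hy, rfl⟩) | ⟨t, g, y, hy, rfl⟩
  · exact ⟨j, cyc_deg hc⟩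
  · exact ⟨j, W.map_mem g hy.2⟩
  · exact ⟨1, W.map_mem g hy.2⟩

lemma good_powers : Good (W := W) (fun V => Subalgebra.toSubmodule
    (Algebra.adjoin W.K (powerGenerators F A M Z V))) where
  alg V := by
    refine Submodule.span_le.2 ?_
    intro x hx
    obtain ⟨j, c, hc, rfl⟩ := Set.mem_iUnion.1 hx
    exact Algebra.subset_adjoin (Or.inl (Or.inl ⟨j,
      spanCycles_of_algSpan (cl_mem_algSpan hc) (W.cl_mem hc)⟩))
  mul V x hx y hy := Subalgebra.mul_mem _ hx hy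
  map {V V'} f x hx := by
    change x ∈ Algebra.adjoin W.K _ at hx
    change W.map f x ∈ Algebra.adjoin W.K _
    induction hx using Algebra.adjoin_induction with
    | mem x hx => exact Algebra.subset_adjoin (powerGens_map f hx)
    | algebraMap r => rw [AlgHom.commutes]; exact Subalgebra.algebraMap_mem _ r
    | add x y _ _ hx hy => rw [map_add]; exact Subalgebra.add_mem _ hx hy
    | mul x y _ _ hx hy => rw [map_mul]; exact Subalgebra.mul_mem _ hx hy
  comm V x hx y := by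
    change x ∈ Algebra.adjoin W.K _ at hx
    induction hx using Algebra.adjoin_induction with
    | mem x hx =>
      obtain ⟨n, hn⟩ := powerGens_even hx
      exact W.even_comm hn y
    | algebraMap r => exact Algebra.commutes r y
    | add x z _ _ hx hz => rw [add_mul, mul_add, hx, hz]
    | mul x z _ _ hx hz => rw [mul_assoc, hz, ← mul_assoc, hx, mul_assoc]

lemma isGenerated_single (h : ∀ t, IsIsotypic F τ (γ t) (A t)) :
    ∀ t r, ∀ Y ∈ single A t r, IsGenerated F τ (fun _ => 1) γ (single A) Y := by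
  rintro t r Y ⟨-, rfl⟩
  refine Set.eq_univ_of_univ_subset ?_
  rw [← show generated _ = Set.univ from h t]
  refine Algebra.adjoin_mono ?_
  rintro x (hx | ⟨z, hz, hx⟩)
  · exact Or.inl hx
  · refine Or.inr ⟨t, 0, z, ⟨rfl, rfl⟩, hz, ?_⟩
    rw [pow_zero, mul_one]
    exact hx

/-- the multiplicities of the labels -/
def Multi (M : I → ℕ) (L : List (I × Qb)) : Prop :=
  ∀ inst : DecidableEq (I × Qb), ∀ l ∈ L, @List.count _ (@instBEqOfDecidableEq _ inst) l L ≤ M l.1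

/-- **The Tate conjecture from small powers**, abstract version. -/
theorem tateFromPowers [IsAlgClosed W.K] (ha : 0 < a) (hw : ∀ t, IsWeil (p ^ a) 1 (γ t))
    (hne : ∀ t, γ t ^ 2 ≠ ((p ^ a : ℕ) : Qb)) (hZ : HasWeights F τ Z)
    (hA : ∀ t, HasMultiplication (A t)) (hA' : ∀ t, IsIsotypic F τ (γ t) (A t))
    (hsplit : ∀ (i : ℕ) (β : Qb), IsWeil (p ^ a) i β → (∃ x ∈ genPart F Z (τ β) i, x ≠ 0) →
      ∀ L : List (I × Qb), (∀ l ∈ L, IsConjRoot ℚ (γ l.1) l.2) →
      IsExact (p ^ a) (fun _ => 1) i β L → NoDual (p ^ a) (fun _ => 1) L →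
      Multi M L ∨ ∃ L₁ L₂ : List (I × Qb),
        L.Perm (L₁ ++ L₂) ∧ L₁ ≠ [] ∧ IsExact (p ^ a) (fun _ => 1) 0 1 L₁ ∧ Multi M L₁) :
    TateFromPowers F A M Z := by
  classical
  have hne' : ∀ t, γ t ^ 2 ≠ ((p ^ a : ℕ) : Qb) ^ ((fun _ => 1 : I → ℕ) t) := by
    intro t
    rw [pow_one]
    exact hne t
  have hm : ∀ t, IsAdd W (A t) ((fun _ => 1 : I → ℕ) t) := fun t => isAdd_one (hA t)
  have main : ∀ (𝒜 : ∀ V : 𝒱.Obj, Submodule W.K (W.H V)), Good 𝒜 →
      (∀ s : List I, IsBounded M s →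
        ∀ j, genEig F (prodL Z (s.map A)) j ≤ 𝒜 (prodL Z (s.map A))) →
      (∀ t, genEig F (A t) 1 ≤ 𝒜 (A t)) → ∀ (s : List I) (j : ℕ),
        genEig F (prodL Z (s.map A)) j ≤ 𝒜 (prodL Z (s.map A)) := by
    intro 𝒜 h𝒜 hT hpair s j
    refine gen_of_word (F := F) (w := fun _ => 1) (γ := γ) (𝒞 := single A) (τ := τ) h𝒜 ha hw hZ
      (isGenerated_single hA') ?_ (s.map A) ?_ j
    · intro i β hβ x hx hxg hx0 V f L hex
      refine word_of_split (Q := Multi M) h𝒜 hw hne' ?_ ?_ f hx hxg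
        (fun L hL hex hnd => hsplit i β hβ ⟨x, ⟨hxg, hx⟩, hx0⟩ L hL hex hnd) L.length L le_rfl hex
      · intro i β x hx hxg V f L hQ hex
        let inst : DecidableEq (I × Qb) := Classical.decEq _
        exact word_in (inst := inst) h𝒜 ha hw (fun _ => one_pos) hm hT hx hxg f (hQ inst)
          (isExact_labs hex)
      · intro V f l l' ht hz
        exact pair_in h𝒜 ha hw (fun _ => one_pos) hne' hm hpair f l l' ht hz
    · intro Y hY
      obtain ⟨t, _, rfl⟩ := List.mem_map.1 hY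
      exact ⟨t, 0, rfl, rfl⟩
  intro s
  refine ⟨fun j => main _ good_powers ?_ ?_ s j, fun hT hpair => ?_⟩
  · intro s hs j x hx
    exact Algebra.subset_adjoin (Or.inl (Or.inr ⟨s, hs, 𝟙 _, j, x, hx, W.map_id _ x⟩))
  · intro t x hx
    exact Algebra.subset_adjoin (Or.inr ⟨t, 𝟙 _, x, hx, W.map_id _ x⟩)
  · have h : ∀ j, TateHolds F (prodL Z (s.map A)) j := fun j => holds_iff.2
      (main _ good_algSpan (fun s' hs' j => holds_iff.1 (hT s' hs' j))
        (fun t => holds_iff.1 (hpair t)) s j)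
    exact fun j => ⟨h j, full_of_strong ha (fun j => holds_iff_strong.1 (h j)) j⟩

end Pool.Agent.H27.Ab
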