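import Pool.Agent.H27.Two.Geo

/-!
# Components of products of sums of eigenvectors
-/

set_option autoImplicit false
set_option linter.unusedSectionVars false

namespace Pool.Agent.H27.Ab

open Polynomial
open Pool.Agent.H27.K3
open Pool.Agent.W458.MF Pool.Agent.Y133.Half

section Proj

variable {K V : Type*} [Field K] [AddCommGroup V] [Module K V]

lemma aeval_mem {T : Module.End K V} {𝒜 : Submodule K V} (h : ∀ x ∈ 𝒜, T x ∈ 𝒜)
    (P : Polynomial K) {x : V} (hx : x ∈ 𝒜) : aeval T P x ∈ 𝒜 := by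
  have hpow : ∀ n : ℕ, (T ^ n) x ∈ 𝒜 := by
    intro n
    induction n with
    | zero => simpa using hx
    | succ n ih => rw [pow_succ']; exact h _ ih
  rw [aeval_eq_sum_range, LinearMap.sum_apply]
  exact Submodule.sum_mem _ fun i _ => Submodule.smul_mem _ _ (hpow i)

/-- the vectors killed by a polynomial which does not vanish at `μ` -/
def killed (T : Module.End K V) (μ : K) : Submodule K V where
  carrier := {v | ∃ P : Polynomial K, P.eval μ ≠ 0 ∧ aeval T P v = 0}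
  zero_mem' := ⟨1, by simp, map_zero _⟩
  add_mem' := by
    rintro v v' ⟨P, hP, h⟩ ⟨P', hP', h'⟩
    refine ⟨P * P', ?_, ?_⟩
    · rw [eval_mul]
      exact mul_ne_zero hP hP'
    · rw [map_add]
      have h1 : aeval T (P * P') v = 0 := by
        rw [mul_comm, map_mul, Module.End.mul_apply, h, map_zero]
      have h2 : aeval T (P * P') v' = 0 := by
        rw [map_mul, Module.End.mul_apply, h', map_zero]
      rw [h1, h2, add_zero]
  smul_mem' := by
    rintro c v ⟨P, hP, h⟩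
    exact ⟨P, hP, by rw [map_smul, h, smul_zero]⟩

lemma mem_killed {T : Module.End K V} {μ ν : K} (hν : ν ≠ μ) {v : V}
    (hv : v ∈ T.maxGenEigenspace ν) : v ∈ killed T μ := by
  rw [Module.End.mem_maxGenEigenspace] at hv
  obtain ⟨n, hn⟩ := hv
  refine ⟨(X - C ν) ^ n, ?_, ?_⟩
  · rw [eval_pow, eval_sub, eval_X, eval_C]
    exact pow_ne_zero _ (sub_ne_zero.2 hν.symm)
  · rw [map_pow, map_sub, aeval_X, aeval_C, Algebra.algebraMap_eq_smul_one]
    exact hn

/-- the component of a vector in an invariant subspace -/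
lemma proj_mem {T : Module.End K V} {𝒜 : Submodule K V} (h : ∀ x ∈ 𝒜, T x ∈ 𝒜) {μ : K}
    {v v' : V} (hv : v ∈ T.maxGenEigenspace μ) (hv' : v' ∈ killed T μ) (hu : v + v' ∈ 𝒜) :
    v ∈ 𝒜 := by
  rw [Module.End.mem_maxGenEigenspace] at hv
  obtain ⟨n, hn⟩ := hv
  obtain ⟨P, hP, hPv⟩ := hv'
  have hco : IsCoprime P ((X - C μ) ^ n) := by
    refine IsCoprime.pow_right (IsCoprime.symm ?_)
    rw [(irreducible_X_sub_C μ).coprime_iff_not_dvd, dvd_iff_isRoot]
    exact hP
  obtain ⟨a, b, hab⟩ := hco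
  have hn' : aeval T ((X - C μ) ^ n) v = 0 := by
    rw [map_pow, map_sub, aeval_X, aeval_C, Algebra.algebraMap_eq_smul_one]
    exact hn
  have h1 : aeval T (a * P) v = v := by
    have h2 : aeval T (a * P + b * (X - C μ) ^ n) v = v := by rw [hab, map_one]; rfl
    rw [map_add, LinearMap.add_apply, map_mul (aeval T) b, Module.End.mul_apply, hn', map_zero,
      add_zero] at h2
    exact h2
  have h2 : aeval T (a * P) v' = 0 := by rw [map_mul, Module.End.mul_apply, hPv, map_zero]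
  have h3 := aeval_mem h (a * P) hu
  rwa [map_add, h1, h2, add_zero] at h3

end Proj

section Dec

variable {K H : Type*} [Field K] [Ring H] [Algebra K H] {T : H →ₐ[K] H} {τ : Qb →+* K}
  {q m : ℕ} {ζ : Qb}

lemma weight_ne (hq : 1 < q) {m m' : ℕ} {x y : Qb} (hx : IsWeil q m x) (hy : IsWeil q m' y)
    (h : m ≠ m') : x ≠ y := by
  rintro rfl
  obtain ⟨φ⟩ := Pool.Agent.H27.K3.exists_cpx
  have h1 := (hx φ).symm.trans (hy φ)
  have h2 : (1 : ℝ) < q := by exact_mod_cast hq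
  exact h (pow_right_injective₀ (by linarith) h2.ne' h1)

lemma weil_mul {m m' : ℕ} {x y : Qb} (hx : IsWeil q m x) (hy : IsWeil q m' y) :
    IsWeil q (m + m') (x * y) := by
  intro φ
  rw [map_mul, norm_mul, mul_pow, hx φ, hy φ, pow_add]

lemma weil_one : IsWeil q 0 1 := by
  intro φ
  simp

/-- the eigenvalues different from `1` and `ζ` -/
def remS (T : H →ₐ[K] H) (τ : Qb →+* K) (q m : ℕ) (ζ : Qb) : Set H :=
  {u | ∃ (ν : Qb) (n : ℕ), IsWeil q n ν ∧ m ≤ n ∧ ν ≠ ζ ∧
    u ∈ Module.End.maxGenEigenspace T.toLinearMap (τ ν)}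

/-- `u₀` and `u₁` are the components of `u` for the eigenvalues `1` and `ζ` -/
structure Dec (T : H →ₐ[K] H) (τ : Qb →+* K) (q m : ℕ) (ζ : Qb) (u u₀ u₁ : H) : Prop where
  zero : u₀ ∈ Module.End.maxGenEigenspace T.toLinearMap (τ 1)
  one : u₁ ∈ Module.End.maxGenEigenspace T.toLinearMap (τ ζ)
  rem : u - u₀ - u₁ ∈ Submodule.span K (remS T τ q m ζ)

lemma gen_mul {μ ν : Qb} {x y : H} (hx : x ∈ Module.End.maxGenEigenspace T.toLinearMap (τ μ))
    (hy : y ∈ Module.End.maxGenEigenspace T.toLinearMap (τ ν)) :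
    x * y ∈ Module.End.maxGenEigenspace T.toLinearMap (τ (μ * ν)) := by
  rw [map_mul]
  exact gen_bilin (β := LinearMap.mul K H) (fun x y => (map_mul T x y).symm) hx hy

lemma Dec.mul (hq : 1 < q) (hm : 0 < m) (hζ : IsWeil q m ζ) {u u₀ u₁ u' u₀' u₁' : H}
    (h : Dec T τ q m ζ u u₀ u₁) (h' : Dec T τ q m ζ u' u₀' u₁') :
    Dec T τ q m ζ (u * u') (u₀ * u₀') (u₀ * u₁' + u₁ * u₀') := by
  have hS : ∀ {μ ν : Qb} {n : ℕ} {x y : H}, IsWeil q n (μ * ν) → m ≤ n → μ * ν ≠ ζ →
      x ∈ Module.End.maxGenEigenspace T.toLinearMap (τ μ) →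
      y ∈ Module.End.maxGenEigenspace T.toLinearMap (τ ν) →
      x * y ∈ Submodule.span K (remS T τ q m ζ) := fun h1 h2 h3 hx hy =>
    Submodule.subset_span ⟨_, _, h1, h2, h3, gen_mul hx hy⟩
  refine ⟨?_, ?_, ?_⟩
  · have h1 := gen_mul h.zero h'.zero
    rwa [mul_one] at h1
  · refine Submodule.add_mem _ ?_ ?_
    · have h1 := gen_mul h.zero h'.one
      rwa [one_mul] at h1
    · have h1 := gen_mul h.one h'.zero
      rwa [mul_one] at h1
  · set r := u - u₀ - u₁ with hr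
    set r' := u' - u₀' - u₁' with hr'
    have e : u * u' - u₀ * u₀' - (u₀ * u₁' + u₁ * u₀') =
        u₀ * r' + r * u₀' + u₁ * u₁' + u₁ * r' + r * u₁' + r * r' := by
      have h1 : u = u₀ + u₁ + r := by rw [hr]; abel
      have h2 : u' = u₀' + u₁' + r' := by rw [hr']; abel
      rw [h1, h2]
      noncomm_ring
    rw [e]
    have key : ∀ (S S' : Set H) (x y : H), x ∈ Submodule.span K S → y ∈ Submodule.span K S' →
        (∀ x ∈ S, ∀ y ∈ S', x * y ∈ Submodule.span K (remS T τ q m ζ)) →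
        x * y ∈ Submodule.span K (remS T τ q m ζ) := fun S S' x y hx hy hS =>
      span_mul_mul' hS hx hy
    refine Submodule.add_mem _ (Submodule.add_mem _ (Submodule.add_mem _ (Submodule.add_mem _
      (Submodule.add_mem _ ?_ ?_) ?_) ?_) ?_) ?_
    · refine key {u₀} _ _ _ (Submodule.subset_span rfl) h'.rem ?_
      rintro x rfl y ⟨ν, n, h1, h2, h3, h4⟩
      exact hS (μ := 1) (ν := ν) (n := n) (by rwa [one_mul]) h2 (by rwa [one_mul]) h.zero h4
    · refine key _ {u₀'} _ _ h.rem (Submodule.subset_span rfl) ?_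
      rintro x ⟨ν, n, h1, h2, h3, h4⟩ y rfl
      exact hS (μ := ν) (ν := 1) (n := n) (by rwa [mul_one]) h2 (by rwa [mul_one]) h4 h'.zero
    · exact hS (weil_mul hζ hζ) (by omega)
        (weight_ne hq (weil_mul hζ hζ) hζ (by omega)) h.one h'.one
    · refine key {u₁} _ _ _ (Submodule.subset_span rfl) h'.rem ?_
      rintro x rfl y ⟨ν, n, h1, h2, h3, h4⟩
      exact hS (weil_mul hζ h1) (by omega)
        (weight_ne hq (weil_mul hζ h1) hζ (by omega)) h.one h4
    · refine key _ {u₁'} _ _ h.rem (Submodule.subset_span rfl) ?_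
      rintro x ⟨ν, n, h1, h2, h3, h4⟩ y rfl
      exact hS (weil_mul h1 hζ) (by omega)
        (weight_ne hq (weil_mul h1 hζ) hζ (by omega)) h4 h'.one
    · refine key _ _ _ _ h.rem h'.rem ?_
      rintro x ⟨ν, n, h1, h2, h3, h4⟩ y ⟨ν', n', h1', h2', h3', h4'⟩
      exact hS (weil_mul h1 h1') (by omega)
        (weight_ne hq (weil_mul h1 h1') hζ (by omega)) h4 h4'

/-- the component in an invariant subspace -/
lemma Dec.mem (hq : 1 < q) (hm : 0 < m) (hζ : IsWeil q m ζ) {u u₀ u₁ : H}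
    (h : Dec T τ q m ζ u u₀ u₁) {𝒜 : Submodule K H} (h𝒜 : ∀ x ∈ 𝒜, T x ∈ 𝒜) (hu : u ∈ 𝒜) :
    u₁ ∈ 𝒜 := by
  have h1 : u₀ + (u - u₀ - u₁) ∈ killed T.toLinearMap (τ ζ) := by
    refine Submodule.add_mem _ ?_ ?_
    · refine mem_killed ?_ h.zero
      intro h2
      exact weight_ne hq weil_one hζ hm.ne (τ.injective h2)
    · refine (Submodule.span_le (p := killed T.toLinearMap (τ ζ))).2 ?_ h.rem
      rintro x ⟨ν, n, h1, h2, h3, h4⟩
      exact mem_killed (fun h5 => h3 (τ.injective h5)) h4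
  refine proj_mem (T := T.toLinearMap) h𝒜 h.one h1 ?_
  have h2 : u₁ + (u₀ + (u - u₀ - u₁)) = u := by abel
  rwa [h2]

end Dec

end Pool.Agent.H27.Ab
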