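import Pool.Agent.H27.Ab.Merge

/-!
# Changing the colours
-/

set_option autoImplicit false
set_option linter.unusedSectionVars false

open CategoryTheory AlgebraicGeometry

universe u v

namespace Pool.Agent.H27.Ab

open Pool.Agent.H914 hiding ev wt
open Pool.Agent.H447 Pool.Agent.H914.VarClass Pool.Agent.H914.VarClass.Obj
  Pool.Agent.H914.WeilCohomology Pool.Agent.H281R3.HT Pool.Agent.W534
  Pool.Agent.W458.RK Pool.Agent.W458.MF Pool.Agent.W536.RR Pool.Agent.Y133.Half
open Pool.Agent.Q56.FD hiding Qb labs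
open Pool.Agent.Q56.FE Pool.Agent.Q56.FR Pool.Agent.H27.K3 Pool.Agent.H27.Lin Pool.Agent.H27.Two

variable {k : Type u} [Field k] {𝒱 : VarClass k} {ops : CycleOps 𝒱}

variable {W : WeilCohomology.{u, v} ops} {p : ℕ} [Fact p.Prime] {a : ℕ} {I : Type*}
  {F : FrobeniusOver W (p ^ a)} {w : I → ℕ} {γ : I → Qb}
  {τ : Qb →+* W.K} {Z V V' Y B : 𝒱.Obj} {A : I → 𝒱.Obj}
  {𝒜 : ∀ V : 𝒱.Obj, Submodule W.K (W.H V)}

/-- the label -/
def PL.lab (e : PL W A) : I × Qb := (e.t, e.z)

/-- the number of letters with a given label -/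
def cn [DecidableEq (I × Qb)] (D : List (PL W A)) (l : I × Qb) : ℕ := (D.map PL.lab).count l

/-- the first colouring: the number of later letters with the same label -/
def rec0 [DecidableEq (I × Qb)] : List (PL W A) → List (PL W A)
  | [] => []
  | e :: D => ⟨e.t, e.z, e.x, cn D (e.t, e.z)⟩ :: rec0 D

lemma rec0_lab [DecidableEq (I × Qb)] (D : List (PL W A)) : (rec0 D).map PL.lab = D.map PL.lab := by
  induction D with
  | nil => rfl
  | cons e D ih =>
    rw [rec0, List.map_cons, List.map_cons, ih]
    rfl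

lemma rec0_ok [DecidableEq (I × Qb)] {D : List (PL W A)} (h : ∀ e ∈ D, e.Ok F w γ τ) :
    ∀ e ∈ rec0 D, e.Ok F w γ τ := by
  induction D with
  | nil => exact fun e he => absurd he List.not_mem_nil
  | cons e D ih =>
    intro e' he'
    rw [rec0, List.mem_cons] at he'
    rcases he' with rfl | he'
    · exact h e List.mem_cons_self
    · exact ih (fun e he => h e (List.mem_cons_of_mem _ he)) e' he'

lemma rec0_lt [DecidableEq (I × Qb)] {D : List (PL W A)} :
    ∀ e ∈ rec0 D, e.c < cn D (e.t, e.z) := by
  induction D with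
  | nil => exact fun e he => absurd he List.not_mem_nil
  | cons e D ih =>
    intro e' he'
    rw [rec0, List.mem_cons] at he'
    rcases he' with rfl | he'
    · change cn D (e.t, e.z) < List.count (e.t, e.z) ((e.t, e.z) :: D.map PL.lab)
      rw [List.count_cons_self]
      exact Nat.lt_succ_self _
    · refine (ih e' he').trans_le ?_
      rw [cn, cn, List.map_cons]
      exact List.count_le_count_cons

/-- **From the first colouring to all colourings.** -/
theorem gd_of_rec0 [DecidableEq (I × Qb)] (h𝒜 : Good 𝒜) (ha : 0 < a)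
    (hw : ∀ t, IsWeil (p ^ a) (w t) (γ t)) (hw0 : ∀ t, 0 < w t)
    (hm : ∀ t, IsAdd W (A t) (w t)) {x₀ : W.H Z} (K : ℕ) : ∀ (D₂ D₁ : List (PL W A)),
      (∀ e ∈ D₁, e.Ok F w γ τ) → (∀ e ∈ D₂, e.Ok F w γ τ) → (∀ e ∈ D₁, K ≤ e.c) →
      (∀ e ∈ D₂, K ≤ e.c) → D₂.length ≤ K → Gd 𝒜 x₀ (D₁ ++ rec0 D₂) →
        Gd 𝒜 x₀ (D₁ ++ D₂) := by
  have _ : DecidableEq I := Classical.decEq I
  intro D₂
  induction D₂ with
  | nil => exact fun D₁ _ _ _ _ _ h => h
  | cons e D₂ ih =>
    intro D₁ h1 h2 h3 h4 h5 h
    rw [List.length_cons] at h5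
    rw [rec0] at h
    have hc : cn D₂ (e.t, e.z) < K := by
      refine lt_of_le_of_lt List.count_le_length ?_
      rw [List.length_map]
      omega
    have h6 := unmerge (F := F) (γ := γ) (τ := τ) h𝒜 ha hw hw0 hm (D₁ := D₁) (D₂ := rec0 D₂)
      (e := ⟨e.t, e.z, e.x, cn D₂ (e.t, e.z)⟩) h1
      (rec0_ok fun e he => h2 e (List.mem_cons_of_mem _ he)) (h2 e List.mem_cons_self)
      (fun e' he' _ h7 => by
        exfalso
        have h8 := h3 e' he'
        rw [h7] at h8
        exact absurd h8 (not_le.2 hc))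
      (fun e' he' h7 h8 h9 => by
        have h10 := rec0_lt e' he'
        change e'.t = e.t at h7
        change e'.c = _ at h8
        change e'.z = e.z at h9
        rw [h7, h9, h8] at h10
        exact absurd h10 (lt_irrefl (cn D₂ (e.t, e.z))))
      h e.c
    have h7 := ih (D₁ ++ [e]) (fun e' he' => by
        rcases List.mem_append.1 he' with h | h
        · exact h1 e' h
        · rw [List.mem_singleton.1 h]
          exact h2 e List.mem_cons_self)
      (fun e' he' => h2 e' (List.mem_cons_of_mem _ he')) (fun e' he' => by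
        rcases List.mem_append.1 he' with h | h
        · exact h3 e' h
        · rw [List.mem_singleton.1 h]
          exact h4 e List.mem_cons_self)
      (fun e' he' => h4 e' (List.mem_cons_of_mem _ he')) (by omega) (by
        rw [List.append_assoc]
        exact h6)
    rw [List.append_assoc] at h7
    exact h7

/-! ### words with few colours -/

lemma oval_map (h : V ⟶ V') (o : Option (V' ⟶ B)) (x : W.H B) :
    oval (o.map fun j => h ≫ j) x = W.map h (oval o x) := by
  cases o with
  | none => exact (map_zero _).symm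
  | some j => exact W.map_comp h j x

/-- the placements come from a product -/
lemma exists_fact (f : V ⟶ Z) (g : Pm A V) : ∀ s : List (I × ℕ),
    (∀ u ∈ s, ∃ j, g u.1 u.2 = some j) →
      ∃ (h : V ⟶ prodL Z ((s.map Prod.fst).map A)) (f' : prodL Z ((s.map Prod.fst).map A) ⟶ Z)
        (g' : Pm A (prodL Z ((s.map Prod.fst).map A))), f = h ≫ f' ∧
          ∀ u ∈ s, g u.1 u.2 = (g' u.1 u.2).map fun j => h ≫ j := by
  classical
  intro s
  induction s with
  | nil => exact fun _ => ⟨f, 𝟙 Z, fun _ _ => none, (Category.comp_id f).symm,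
      fun u hu => absurd hu List.not_mem_nil⟩
  | cons u s ih =>
    intro hs
    obtain ⟨h, f', g', hf, hg⟩ := ih fun v hv => hs v (List.mem_cons_of_mem _ hv)
    obtain ⟨j, hj⟩ := hs u List.mem_cons_self
    let P := prodL Z ((s.map Prod.fst).map A)
    let g₁ : Pm A (P.prod (A u.1)) := fun t c => if H : u.1 = t ∧ u.2 = c then
      some (Eq.rec (motive := fun t _ => (P.prod (A u.1) ⟶ A t)) (snd P (A u.1)) H.1)
      else (g' t c).map fun i => fst P (A u.1) ≫ i
    refine ⟨lift h j, fst P (A u.1) ≫ f', g₁, ?_, ?_⟩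
    · exact hf.trans ((congrArg (· ≫ f') (lift_fst h j).symm).trans (Category.assoc _ _ _))
    · intro v hv
      by_cases H : u.1 = v.1 ∧ u.2 = v.2
      · obtain ⟨v1, v2⟩ := v
        obtain ⟨H1, H2⟩ := H
        change u.1 = v1 at H1
        change u.2 = v2 at H2
        subst H1 H2
        have h1 : g₁ u.1 u.2 = some (snd P (A u.1)) := dif_pos ⟨rfl, rfl⟩
        change g u.1 u.2 = (g₁ u.1 u.2).map _
        rw [h1, hj]
        exact congrArg some (lift_snd h j).symm
      · have hv' : v ∈ s := by
          rcases List.mem_cons.1 hv with rfl | hv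
          · exact absurd ⟨rfl, rfl⟩ H
          · exact hv
        have h1 : g₁ v.1 v.2 = (g' v.1 v.2).map fun i => fst P (A u.1) ≫ i := dif_neg H
        rw [h1, hg v hv']
        cases g' v.1 v.2 with
        | none => rfl
        | some i =>
          refine congrArg some ?_
          change h ≫ i = lift h j ≫ (fst P (A u.1) ≫ i)
          rw [← Category.assoc]
          exact congrArg (· ≫ i) (lift_fst h j).symm

lemma pval_mem {g : Pm A V} {e : PL W A} (h : e.Ok F w γ τ) : pval g e ∈ W.gr V (w e.t) := by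
  change oval (g e.t e.c) e.x ∈ _
  cases g e.t e.c with
  | none => exact Submodule.zero_mem _
  | some j => exact W.map_mem j h.2.1

lemma pval_gen {g : Pm A V} {e : PL W A} (h : e.Ok F w γ τ) :
    pval g e ∈ (fr F V).maxGenEigenspace (τ e.z) := by
  change oval (g e.t e.c) e.x ∈ _
  cases g e.t e.c with
  | none => exact Submodule.zero_mem _
  | some j => exact gen_pull j h.2.2

lemma pword_mem {g : Pm A V} {D : List (PL W A)} (h : ∀ e ∈ D, e.Ok F w γ τ) :
    pword g D ∈ W.gr V ((D.map PL.lab).map fun l => w l.1).sum := by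
  induction D with
  | nil => exact W.one_mem V
  | cons e D ih =>
    rw [pword_cons]
    exact W.mul_mem (pval_mem (h e List.mem_cons_self))
      (ih fun e he => h e (List.mem_cons_of_mem _ he))

lemma pword_gen {g : Pm A V} {D : List (PL W A)} (h : ∀ e ∈ D, e.Ok F w γ τ) :
    pword g D ∈ (fr F V).maxGenEigenspace (τ ((D.map PL.lab).map Prod.snd).prod) := by
  induction D with
  | nil =>
    apply eig_mem_gen
    rw [pword_nil, List.map_nil, List.map_nil, List.prod_nil, τ.map_one, one_smul]
    exact map_one (W.map (F.Fr V))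
  | cons e D ih =>
    rw [pword_cons, List.map_cons, List.map_cons, List.prod_cons]
    exact gen_mul (T := W.map (F.Fr V)) (pval_gen (h e List.mem_cons_self))
      (ih fun e he => h e (List.mem_cons_of_mem _ he))

/-- the number of colours -/
lemma count_dedup [DecidableEq I] {s : List (I × ℕ)} {M : I → ℕ} (hs : s.Nodup)
    (h : ∀ u ∈ s, u.2 < M u.1) (t : I) : (s.map Prod.fst).count t ≤ M t := by
  have h1 : (s.map Prod.fst).count t = (s.filter fun u => u.1 = t).length := by
    rw [List.count, List.countP_map, List.countP_eq_length_filter]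
    congr 1
  have h2 : (s.filter fun u => u.1 = t).Nodup := hs.filter _
  rw [h1, ← List.toFinset_card_of_nodup h2, ← Finset.card_range (M t)]
  refine Finset.card_le_card_of_injOn Prod.snd ?_ ?_
  · intro u hu
    rw [Finset.mem_coe, List.mem_toFinset, List.mem_filter, decide_eq_true_eq] at hu
    rw [Finset.mem_coe, Finset.mem_range, ← hu.2]
    exact h u hu.1
  · intro u hu v hv huv
    rw [Finset.mem_coe, List.mem_toFinset, List.mem_filter, decide_eq_true_eq] at hu hv
    exact Prod.ext (hu.2.trans hv.2.symm) huv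

/-- **Words with few colours come from products with few factors.** -/
theorem gd_base [DecidableEq I] (h𝒜 : Good 𝒜) {M : I → ℕ}
    (hT : ∀ s : List I, (∀ t, s.count t ≤ M t) →
      ∀ j, genEig F (prodL Z (s.map A)) j ≤ 𝒜 (prodL Z (s.map A)))
    {i : ℕ} {β : Qb} {x₀ : W.H Z} (hx : x₀ ∈ W.gr Z i)
    (hxg : x₀ ∈ (fr F Z).maxGenEigenspace (τ β)) {D : List (PL W A)}
    (hok : ∀ e ∈ D, e.Ok F w γ τ) (hcol : ∀ e ∈ D, e.c < M e.t)
    (hex : IsExact (p ^ a) w i β (D.map PL.lab)) : Gd 𝒜 x₀ D := by
  intro V f g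
  by_cases hall : ∀ e ∈ D, ∃ j, g e.t e.c = some j
  · let s := (D.map fun e => (e.t, e.c)).dedup
    have hs : ∀ u ∈ s, ∃ e ∈ D, (e.t, e.c) = u := fun u hu =>
      List.mem_map.1 (List.mem_dedup.1 hu)
    obtain ⟨h, f', g', hf, hg⟩ := exists_fact f g s (by
      intro u hu
      obtain ⟨e, he, rfl⟩ := hs u hu
      exact hall e he)
    have hcount : ∀ t, (s.map Prod.fst).count t ≤ M t := by
      refine count_dedup (List.nodup_dedup _) ?_
      intro u hu
      obtain ⟨e, he, rfl⟩ := hs u hu
      exact hcol e he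
    have h1 : pword g D = W.map h (pword g' D) := by
      have h2 : ∀ D' : List (PL W A), (∀ e ∈ D', e ∈ D) → pword g D' = W.map h (pword g' D') := by
        intro D'
        induction D' with
        | nil =>
          intro _
          rw [pword_nil, pword_nil, map_one]
        | cons e D' ih =>
          intro hD'
          rw [pword_cons, pword_cons, map_mul,
            ih fun e he => hD' e (List.mem_cons_of_mem _ he)]
          congr 1
          have h3 : (e.t, e.c) ∈ s := List.mem_dedup.2 (List.mem_map.2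
            ⟨e, hD' e List.mem_cons_self, rfl⟩)
          change oval (g e.t e.c) e.x = W.map h (oval (g' e.t e.c) e.x)
          rw [← oval_map, ← hg (e.t, e.c) h3]
      exact h2 D fun e he => he
    rw [h1, hf, W.map_comp, ← map_mul]
    obtain ⟨j, hj1, hj2⟩ := hex
    refine h𝒜.map h _ (hT _ hcount j ⟨?_, ?_⟩)
    · have h2 : W.map f' x₀ * pword g' D ∈ Module.End.maxGenEigenspace
          (W.map (F.Fr (prodL Z ((s.map Prod.fst).map A)))).toLinearMap
          (τ (β * ((D.map PL.lab).map Prod.snd).prod)) :=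
        gen_mul (T := W.map (F.Fr _)) (gen_pull f' hxg) (pword_gen hok)
      rw [hj1, map_pow, map_natCast] at h2
      exact h2
    · have h2 : W.map f' x₀ * pword g' D ∈ W.gr _ (i + ((D.map PL.lab).map fun l => w l.1).sum) :=
        W.mul_mem (W.map_mem _ hx) (pword_mem hok)
      rw [hj2] at h2
      exact h2
  · push Not at hall
    obtain ⟨e, he, hne⟩ := hall
    have h1 : pval g e = 0 := by
      change oval (g e.t e.c) e.x = 0
      cases h2 : g e.t e.c with
      | none => rfl
      | some j => exact absurd h2 (hne j)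
    have h2 : pword g D = 0 := List.prod_eq_zero (by
      rw [← h1]
      exact List.mem_map.2 ⟨e, he, rfl⟩)
    rw [h2, mul_zero]
    exact Submodule.zero_mem _

end Pool.Agent.H27.Ab
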