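import Pool.Agent.H27.Ab.Group

/-!
# The Tate classes on products with group varieties
-/

set_option autoImplicit false
set_option linter.unusedSectionVars false

open CategoryTheory AlgebraicGeometry

universe u v

namespace Pool.Agent.H27.Ab

open Pool.Agent.H914 hiding ev wt
open Pool.Agent.H447 Pool.Agent.H914.VarClass Pool.Agent.H914.VarClass.Obj
  Pool.Agent.H914.WeilCohomology Pool.Agent.H281R3.HT Pool.Agent.W534
  Pool.Agent.W458.RK Pool.Agent.W458.MF Pool.Agent.W536.RR Pool.Agent.Y133.Half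
open Pool.Agent.Q56.FD hiding Qb labs
open Pool.Agent.Q56.FE Pool.Agent.Q56.FR Pool.Agent.H27.K3 Pool.Agent.H27.Lin Pool.Agent.H27.Two

variable {k : Type u} [Field k] {𝒱 : VarClass k} {ops : CycleOps 𝒱}

variable {W : WeilCohomology.{u, v} ops} {p : ℕ} [Fact p.Prime] {a : ℕ} {I : Type*}
  {F : FrobeniusOver W (p ^ a)} {w : I → ℕ} {γ : I → Qb} {𝒞 : I → ℕ → Set 𝒱.Obj}
  {τ : Qb →+* W.K} {Z V V' Y B : 𝒱.Obj} {A : I → 𝒱.Obj}
  {𝒜 : ∀ V : 𝒱.Obj, Submodule W.K (W.H V)}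

/-! ### generalities -/

/-- **Tate classes and words.** -/
theorem gen_of_word [IsAlgClosed W.K] (h𝒜 : Good 𝒜) (ha : 0 < a)
    (hw : ∀ t, IsWeil (p ^ a) (w t) (γ t)) (hZ : HasWeights F τ Z)
    (h𝒞 : ∀ t r, ∀ Y ∈ 𝒞 t r, IsGenerated F τ w γ 𝒞 Y)
    (hword : ∀ (i : ℕ) (β : Qb), IsWeil (p ^ a) i β → ∀ x : W.H Z, x ∈ W.gr Z i →
      x ∈ (fr F Z).maxGenEigenspace (τ β) → x ≠ 0 → ∀ (V : 𝒱.Obj) (f : V ⟶ Z)
        (L : List (CL F w γ 𝒞 τ V)), (∃ j : ℕ, β * ev L * ((p ^ a : ℕ) : Qb) ^ tw L =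
          ((p ^ a : ℕ) : Qb) ^ j ∧ i + wt L + 2 * tw L = 2 * j) → W.map f x * word L ∈ 𝒜 V)
    (l : List 𝒱.Obj) (hl : ∀ Y ∈ l, ∃ t r, Y ∈ 𝒞 t r) (j : ℕ) :
    genEig F (prodL Z l) j ≤ 𝒜 (prodL Z l) := by
  have hq0 : ((p ^ a : ℕ) : Qb) ≠ 0 := qb_ne p a
  intro x hx
  have hspan := RW_prodL hZ h𝒞 l hl x
  have hword' : ∀ (n : ℕ) (c : W.H (prodL Z l)) (f : prodL Z l ⟶ Z) (β : Qb) (z : W.H Z)
      (L : List (CL F w γ 𝒞 τ (prodL Z l))), c ∈ spanCycles W (prodL Z l) n →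
      z ∈ (fr F Z).maxGenEigenspace (τ β) → c * (W.map f z * word L) ∈
        (fr F (prodL Z l)).maxGenEigenspace (τ (((p ^ a : ℕ) : Qb) ^ n *
          (β * (ev L * ((p ^ a : ℕ) : Qb) ^ tw L)))) := by
    intro n c f β z L hc hz
    have h1 : W.map f z * word L ∈ (fr F (prodL Z l)).maxGenEigenspace
        (τ β * τ (ev L * ((p ^ a : ℕ) : Qb) ^ tw L)) :=
      gen_bilin (β := LinearMap.mul W.K (W.H _)) (fun x y =>
        (map_mul (W.map (F.Fr _)) x y).symm) (gen_pull f hz) (word_gen L)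
    have h2 : c * (W.map f z * word L) ∈ (fr F (prodL Z l)).maxGenEigenspace
        (((p ^ a : ℕ) : W.K) ^ n * (τ β * τ (ev L * ((p ^ a : ℕ) : Qb) ^ tw L))) :=
      gen_bilin (β := LinearMap.mul W.K (W.H _)) (fun x y =>
        (map_mul (W.map (F.Fr _)) x y).symm) (cyc_eig hc) h1
    rw [map_mul τ (((p ^ a : ℕ) : Qb) ^ n), map_mul τ β, map_pow, map_natCast]
    exact h2
  have hgen : ∀ v ∈ RW F w γ 𝒞 τ Z (prodL Z l),
      ∃ μ, v ∈ (fr F (prodL Z l)).maxGenEigenspace μ := by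
    rintro v ⟨n, c, f, i, β, z, L, hc, hβ, hz, hzg, rfl⟩
    exact ⟨_, hword' n c f β z L hc hzg⟩
  have h3 := mem_span_gen (T := fr F (prodL Z l)) hgen hspan hx.1
  refine (Submodule.span_le (p := 𝒜 (prodL Z l))).2 ?_ h3
  rintro v ⟨⟨n, c, f, i, β, z, L, hc, hβ, hz, hzg, rfl⟩, hvμ⟩
  by_cases hv0 : c * (W.map f z * word L) = 0
  · rw [hv0]
    exact Submodule.zero_mem _
  have hz0 : z ≠ 0 := by
    rintro rfl
    apply hv0
    rw [map_zero, zero_mul, mul_zero]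
  have h4 := eq_of_mem_gen (hword' n c f β z L hc hzg) hvμ hv0
  have h5 : ((p ^ a : ℕ) : Qb) ^ n * (β * (ev L * ((p ^ a : ℕ) : Qb) ^ tw L)) =
      ((p ^ a : ℕ) : Qb) ^ j := by
    apply τ.injective
    rw [h4, map_pow, map_natCast]
  -- the weights
  have h6 : i + wt L + 2 * tw L + 2 * n = 2 * j := by
    obtain ⟨φ⟩ := exists_cpx
    have h6 := congrArg (fun z => ‖φ z‖ ^ 2) h5
    have h7 : ‖φ ((p ^ a : ℕ) : Qb)‖ = ((p ^ a : ℕ) : ℝ) := by
      rw [map_natCast, Complex.norm_natCast]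
    simp only [map_mul, map_pow φ, norm_mul, norm_pow, mul_pow, h7] at h6
    rw [hβ φ, ev_norm_sq hw] at h6
    have h8 : ((p ^ a : ℕ) : ℝ) ^ (i + wt L + 2 * tw L + 2 * n) = ((p ^ a : ℕ) : ℝ) ^ (2 * j) := by
      calc ((p ^ a : ℕ) : ℝ) ^ (i + wt L + 2 * tw L + 2 * n) = _ := by
            rw [pow_add, pow_add, pow_add]
        _ = (((p ^ a : ℕ) : ℝ) ^ n) ^ 2 * (((p ^ a : ℕ) : ℝ) ^ i * (((p ^ a : ℕ) : ℝ) ^ wt L *
            (((p ^ a : ℕ) : ℝ) ^ tw L) ^ 2)) := by ring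
        _ = _ := h6
        _ = _ := by ring
    exact (pow_right_injective₀ (q_pos (p := p) (e := a)) (q_gt ha).ne') h8
  refine h𝒜.mul _ _ (h𝒜.alg _ (cyc_alg hc)) _ ?_
  refine hword i β hβ z hz hzg hz0 _ f L ⟨j - n, ?_, by omega⟩
  apply mul_right_cancel₀ (pow_ne_zero n hq0)
  rw [← pow_add, Nat.sub_add_cancel (by omega), ← h5]
  ring

lemma isExact_labs {i : ℕ} {β : Qb} {L : List (CL F w γ 𝒞 τ V)}
    (h : ∃ j : ℕ, β * ev L * ((p ^ a : ℕ) : Qb) ^ tw L = ((p ^ a : ℕ) : Qb) ^ j ∧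
        i + wt L + 2 * tw L = 2 * j) : IsExact (p ^ a) w i β (labs L) := by
  have hq0 : ((p ^ a : ℕ) : Qb) ≠ 0 := qb_ne p a
  obtain ⟨j, hj1, hj2⟩ := h
  refine ⟨j - tw L, ?_, ?_⟩
  · apply mul_right_cancel₀ (pow_ne_zero (tw L) hq0)
    rw [← pow_add, Nat.sub_add_cancel (by omega)]
    exact hj1
  · rw [wt_eq]
    omega

/-- **Words are generated by words with the property `Q`.** -/
theorem word_of_split (h𝒜 : Good 𝒜) (hw : ∀ t, IsWeil (p ^ a) (w t) (γ t))
    (hne : ∀ t, γ t ^ 2 ≠ ((p ^ a : ℕ) : Qb) ^ w t) {Q : List (I × Qb) → Prop}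
    (hQ : ∀ (i : ℕ) (β : Qb) (x : W.H Z), x ∈ W.gr Z i →
      x ∈ (fr F Z).maxGenEigenspace (τ β) → ∀ (V : 𝒱.Obj) (f : V ⟶ Z)
        (L : List (CL F w γ 𝒞 τ V)), Q (labs L) →
          (∃ j : ℕ, β * ev L * ((p ^ a : ℕ) : Qb) ^ tw L = ((p ^ a : ℕ) : Qb) ^ j ∧
            i + wt L + 2 * tw L = 2 * j) → W.map f x * word L ∈ 𝒜 V)
    (hpair : ∀ (V : 𝒱.Obj), (V ⟶ Z) → ∀ (l l' : CL F w γ 𝒞 τ V), l'.t = l.t →
      l'.z = ((p ^ a : ℕ) : Qb) ^ w l.t / l.z → l.val * l'.val ∈ 𝒜 V)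
    (f : V ⟶ Z) {i : ℕ} {β : Qb} {x : W.H Z} (hx : x ∈ W.gr Z i)
    (hxg : x ∈ (fr F Z).maxGenEigenspace (τ β))
    (hsplit : ∀ (L : List (I × Qb)), (∀ l ∈ L, IsConjRoot ℚ (γ l.1) l.2) →
      IsExact (p ^ a) w i β L → NoDual (p ^ a) w L → Q L ∨ ∃ L₁ L₂ : List (I × Qb),
        L.Perm (L₁ ++ L₂) ∧ L₁ ≠ [] ∧ IsExact (p ^ a) w 0 1 L₁ ∧ Q L₁) :
    ∀ (n : ℕ) (L : List (CL F w γ 𝒞 τ V)), L.length ≤ n →
      (∃ j : ℕ, β * ev L * ((p ^ a : ℕ) : Qb) ^ tw L = ((p ^ a : ℕ) : Qb) ^ j ∧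
        i + wt L + 2 * tw L = 2 * j) → W.map f x * word L ∈ 𝒜 V := by
  classical
  have hq : 0 < p ^ a := pow_pos (Fact.out : p.Prime).pos a
  have hq0 : ((p ^ a : ℕ) : Qb) ≠ 0 := qb_ne p a
  have hconj : ∀ L : List (CL F w γ 𝒞 τ V), ∀ l ∈ labs L, IsConjRoot ℚ (γ l.1) l.2 := by
    intro L l hl
    obtain ⟨l', _, rfl⟩ := List.mem_map.1 hl
    exact l'.hz
  intro n
  induction n with
  | zero =>
    intro L hL hex
    obtain rfl : L = [] := List.length_eq_zero_iff.1 (Nat.le_zero.1 hL)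
    rcases hsplit _ (hconj []) (isExact_labs hex) (fun l hl => absurd hl List.not_mem_nil)
      with h | ⟨L₁, L₂, h1, h2, -, -⟩
    · exact hQ i β x hx hxg V f [] h hex
    · exact absurd (List.append_eq_nil_iff.1 (List.nil_perm.1 h1)).1 h2
  | succ n ih =>
    intro L hL hex
    by_cases hnd : NoDual (p ^ a) w (labs L)
    · rcases hsplit _ (hconj L) (isExact_labs hex) hnd with h | ⟨K₁, K₂, hperm0, hK₁, hex₁, hS⟩
      · exact hQ i β x hx hxg V f L h hex
      · obtain ⟨L₁, L₂, hperm, h4, -⟩ := exists_split CL.lab K₁ L K₂ hperm0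
        have hlab : labs L₁ = K₁ := h4
        have hL₁ : L₁ ≠ [] := by
          rintro rfl
          exact hK₁ h4.symm
        obtain ⟨j, hj1, hj2⟩ := hex
        obtain ⟨j₁, h1, h2⟩ := hex₁
        rw [← hlab, one_mul] at h1
        rw [← hlab, wt_eq, zero_add] at h2
        change ev L₁ = _ at h1
        have hone : (1 : W.H Z) ∈ (fr F Z).maxGenEigenspace (τ 1) := by
          apply eig_mem_gen
          rw [τ.map_one, one_smul]
          exact map_one (W.map (F.Fr Z))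
        have hblock : word L₁ ∈ 𝒜 V := by
          have h3 := hQ 0 1 1 (W.one_mem Z) hone V f L₁ (by rw [hlab]; exact hS)
            ⟨j₁ + tw L₁, by rw [one_mul, h1, pow_add], by omega⟩
          rwa [map_one, one_mul] at h3
        obtain ⟨c, hc⟩ := word_perm hperm
        have e1 := ev_perm hperm
        have e2 := tw_perm hperm
        have e3 := wt_perm hperm
        rw [ev_append] at e1
        rw [tw_append] at e2
        rw [wt_append] at e3
        rw [hc, word_append, mul_smul_comm]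
        refine Submodule.smul_mem _ _ ?_
        rw [← mul_assoc, ← h𝒜.comm _ _ hblock, mul_assoc]
        refine h𝒜.mul _ _ hblock _ (ih L₂ ?_ ⟨j - j₁ - tw L₁, ?_, by omega⟩)
        · have h3 := hperm.length_eq
          rw [List.length_append] at h3
          have h4 : 0 < L₁.length := List.length_pos_iff.2 hL₁
          omega
        · apply mul_right_cancel₀ (pow_ne_zero (j₁ + tw L₁) hq0)
          rw [← pow_add, show j - j₁ - tw L₁ + (j₁ + tw L₁) = j by omega, ← hj1, e1, e2, h1,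
            pow_add, pow_add]
          ring
    obtain ⟨j, hj1, hj2⟩ := hex
    unfold NoDual at hnd
    push Not at hnd
    obtain ⟨u, hu, hdual⟩ := hnd
    obtain ⟨l, hl, rfl⟩ := List.mem_map.1 hu
    change (l.t, ((p ^ a : ℕ) : Qb) ^ w l.t / l.z) ∈ labs L at hdual
    obtain ⟨L₁, L₂, rfl⟩ := List.append_of_mem hl
    have hperm0 : (L₁ ++ l :: L₂).Perm (l :: (L₁ ++ L₂)) := List.perm_middle
    have hz0 : l.z ≠ 0 := ((hw l.t).conj l.hz).ne_zero hq
    have hnot : (l.t, ((p ^ a : ℕ) : Qb) ^ w l.t / l.z) ≠ l.lab := by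
      intro h
      have h1 : ((p ^ a : ℕ) : Qb) ^ w l.t / l.z = l.z := congrArg Prod.snd h
      rw [div_eq_iff hz0] at h1
      apply hne l.t
      obtain ⟨σ, hσ⟩ := isConjRoot_iff_exists_algEquiv.1 l.hz
      rw [← hσ, ← map_pow, sq, ← h1, map_pow, map_natCast]
    have hdual' : (l.t, ((p ^ a : ℕ) : Qb) ^ w l.t / l.z) ∈ labs (L₁ ++ L₂) := by
      have h1 : (l.t, ((p ^ a : ℕ) : Qb) ^ w l.t / l.z) ∈ labs (l :: (L₁ ++ L₂)) :=
        (hperm0.map CL.lab).mem_iff.1 hdual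
      rw [labs, List.map_cons, List.mem_cons] at h1
      exact h1.resolve_left hnot
    obtain ⟨l', hl', hlab⟩ := List.mem_map.1 hdual'
    have ht : l'.t = l.t := congrArg Prod.fst hlab
    have hz : l'.z = ((p ^ a : ℕ) : Qb) ^ w l.t / l.z := congrArg Prod.snd hlab
    obtain ⟨L₃, L₄, hL'⟩ := List.append_of_mem hl'
    have hperm : (L₁ ++ l :: L₂).Perm (l :: l' :: (L₃ ++ L₄)) := by
      refine hperm0.trans ?_
      rw [hL']
      exact List.Perm.cons l List.perm_middle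
    obtain ⟨c, hc⟩ := word_perm hperm
    have hblock := hpair V f l l' ht hz
    rw [hc, word_cons, word_cons, mul_smul_comm]
    refine Submodule.smul_mem _ _ ?_
    rw [← mul_assoc l.val, ← mul_assoc, ← h𝒜.comm _ _ hblock, mul_assoc]
    refine h𝒜.mul _ _ hblock _ (ih (L₃ ++ L₄) ?_ ?_)
    · have h1 := hperm.length_eq
      rw [List.length_cons, List.length_cons] at h1
      omega
    · have h1 : ev (L₁ ++ l :: L₂) = l.z * (l'.z * ev (L₃ ++ L₄)) := by
        rw [ev_perm hperm, ev_cons, ev_cons]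
      have h2 : tw (L₁ ++ l :: L₂) = l.r + (l'.r + tw (L₃ ++ L₄)) := by
        rw [tw_perm hperm, tw_cons, tw_cons]
      have h3 : wt (L₁ ++ l :: L₂) = w l.t + (w l.t + wt (L₃ ++ L₄)) := by
        rw [wt_perm hperm, wt_cons, wt_cons, ht]
      have hjle : w l.t + l.r + l'.r ≤ j := by omega
      refine ⟨j - (w l.t + l.r + l'.r), ?_, by omega⟩
      apply mul_right_cancel₀ (pow_ne_zero (w l.t + l.r + l'.r) hq0)
      rw [← pow_add, Nat.sub_add_cancel hjle, ← hj1, h1, h2, hz, pow_add, pow_add, pow_add,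
        pow_add]
      field_simp

/-! ### group varieties -/

/-- the class of the variety `A t` -/
def single (A : I → 𝒱.Obj) (t : I) (r : ℕ) : Set 𝒱.Obj := {Y | r = 0 ∧ Y = A t}

/-- words are placed words -/
lemma exists_pm (K : ℕ) : ∀ L : List (CL F w γ (single A) τ V),
    ∃ (D : List (PL W A)) (g : Pm A V), (∀ e ∈ D, e.Ok F w γ τ) ∧
      (∀ e ∈ D, K ≤ e.c ∧ e.c < K + L.length) ∧ D.map PL.lab = labs L ∧ word L = pword g D := by
  classical
  intro L
  induction L with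
  | nil => exact ⟨[], fun _ _ => none, fun e he => absurd he List.not_mem_nil,
      fun e he => absurd he List.not_mem_nil, rfl, rfl⟩
  | cons l L ih =>
    obtain ⟨D, g, h1, h2, h3, h4⟩ := ih
    obtain ⟨t, r, Y, hY, f, z, hz, x, hx, hg⟩ := l
    obtain ⟨rfl, rfl⟩ := hY
    let g₁ : Pm A V := fun s c => if H : t = s ∧ K + L.length = c then
      some (Eq.rec (motive := fun s _ => (V ⟶ A s)) f H.1) else g s c
    have hg₁ : g₁ t (K + L.length) = some f := dif_pos ⟨rfl, rfl⟩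
    have hD : ∀ D' : List (PL W A), (∀ e ∈ D', e ∈ D) → pword g₁ D' = pword g D' := by
      intro D'
      induction D' with
      | nil => exact fun _ => rfl
      | cons e D' ih =>
        intro hD'
        rw [pword_cons, pword_cons, ih fun e he => hD' e (List.mem_cons_of_mem _ he)]
        congr 1
        have h5 : g₁ e.t e.c = g e.t e.c := dif_neg fun h => by
          have h6 := (h2 e (hD' e List.mem_cons_self)).2
          omega
        change oval (g₁ e.t e.c) e.x = oval (g e.t e.c) e.x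
        rw [h5]
    refine ⟨⟨t, z, x, K + L.length⟩ :: D, g₁, ?_, ?_, ?_, ?_⟩
    · intro e he
      rcases List.mem_cons.1 he with rfl | he
      · refine ⟨hz, ?_, ?_⟩
        · rw [Nat.mul_zero, Nat.add_zero] at hx
          exact hx
        · rw [pow_zero, mul_one] at hg
          exact hg
      · exact h1 e he
    · intro e he
      rw [List.length_cons]
      rcases List.mem_cons.1 he with rfl | he
      · change K ≤ K + L.length ∧ K + L.length < K + (L.length + 1)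
        omega
      · have h5 := h2 e he
        omega
    · rw [List.map_cons, h3]
      rfl
    · rw [word_cons, pword_cons, h4, hD D fun e he => he]
      congr 1
      change W.map f x = oval (g₁ t (K + L.length)) x
      rw [hg₁]
      rfl

/-- **Words with small multiplicities.** -/
theorem word_in [inst : DecidableEq (I × Qb)] (h𝒜 : Good 𝒜) (ha : 0 < a)
    (hw : ∀ t, IsWeil (p ^ a) (w t) (γ t)) (hw0 : ∀ t, 0 < w t)
    (hm : ∀ t, IsAdd W (A t) (w t)) {M : I → ℕ}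
    (hT : ∀ s : List I, IsBounded M s →
      ∀ j, genEig F (prodL Z (s.map A)) j ≤ 𝒜 (prodL Z (s.map A)))
    {i : ℕ} {β : Qb} {x : W.H Z} (hx : x ∈ W.gr Z i)
    (hxg : x ∈ (fr F Z).maxGenEigenspace (τ β)) (f : V ⟶ Z)
    {L : List (CL F w γ (single A) τ V)} (hM : ∀ l ∈ labs L, (labs L).count l ≤ M l.1)
    (hex : IsExact (p ^ a) w i β (labs L)) : W.map f x * word L ∈ 𝒜 V := by
  obtain ⟨D, g, h1, h2, h3, h4⟩ := exists_pm L.length L
  have hlen : D.length = L.length := by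
    have h5 := congrArg List.length h3
    rwa [List.length_map, labs, List.length_map] at h5
  have hlab : (rec0 D).map PL.lab = labs L := by rw [rec0_lab, h3]
  have hbase : Gd 𝒜 x (rec0 D) := by
    let _ : DecidableEq I := fun a b => Classical.propDecidable (a = b)
    refine gd_base (F := F) (w := w) (γ := γ) (τ := τ) (β := β) (i := i) h𝒜 (M := M)
      (fun s hs j => hT s hs j) hx hxg (rec0_ok h1) ?_ (by rw [hlab]; exact hex)
    · intro e he
      refine (rec0_lt e he).trans_le ?_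
      have h5 : e.lab ∈ labs L := by
        rw [← hlab]
        exact List.mem_map.2 ⟨e, he, rfl⟩
      rw [cn, h3]
      exact hM e.lab h5
  have h5 := gd_of_rec0 (F := F) (γ := γ) (τ := τ) (W := W) h𝒜 ha hw hw0 hm (x₀ := x)
    L.length D [] (fun e he => absurd he List.not_mem_nil) h1
    (fun e he => absurd he List.not_mem_nil) (fun e he => (h2 e he).1) hlen.le hbase
  rw [h4]
  exact h5 V f g

/-- **Dual pairs.** -/
theorem pair_in [DecidableEq I] (h𝒜 : Good 𝒜) (ha : 0 < a)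
    (hw : ∀ t, IsWeil (p ^ a) (w t) (γ t)) (hw0 : ∀ t, 0 < w t)
    (hne : ∀ t, γ t ^ 2 ≠ ((p ^ a : ℕ) : Qb) ^ w t)
    (hm : ∀ t, IsAdd W (A t) (w t)) (hpair : ∀ t, genEig F (A t) (w t) ≤ 𝒜 (A t))
    (f : V ⟶ Z) (l l' : CL F w γ (single A) τ V) (ht : l'.t = l.t)
    (hz : l'.z = ((p ^ a : ℕ) : Qb) ^ w l.t / l.z) : l.val * l'.val ∈ 𝒜 V := by
  have hq : 0 < p ^ a := pow_pos (Fact.out : p.Prime).pos a
  obtain ⟨t, r, Y, hY, j, z, hcz, x, hx, hg⟩ := l
  obtain ⟨t', r', Y', hY', j', z', hcz', x', hx', hg'⟩ := l'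
  change t' = t at ht
  subst ht
  change z' = ((p ^ a : ℕ) : Qb) ^ w t' / z at hz
  obtain ⟨rfl, rfl⟩ := hY
  obtain ⟨rfl, rfl⟩ := hY'
  change W.map j x * W.map j' x' ∈ 𝒜 V
  rw [Nat.mul_zero, Nat.add_zero] at hx hx'
  rw [pow_zero, mul_one] at hg hg'
  have hz0 : z ≠ 0 := ((hw t').conj hcz).ne_zero hq
  have hzz : z' ≠ z := by
    intro h
    rw [h, eq_div_iff hz0] at hz
    apply hne t'
    obtain ⟨σ, hσ⟩ := isConjRoot_iff_exists_algEquiv.1 hcz
    rw [← hσ, ← map_pow, sq, hz, map_pow, map_natCast]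
  have hmul : z * z' = ((p ^ a : ℕ) : Qb) ^ w t' := by rw [hz, mul_div_cancel₀ _ hz0]
  have hxx : x * x' ∈ 𝒜 (A t') := by
    refine hpair t' ⟨?_, ?_⟩
    · have h1 := gen_mul (T := W.map (F.Fr (A t'))) hg hg'
      rw [hmul, map_pow, map_natCast] at h1
      exact h1
    · have h1 := W.mul_mem hx hx'
      rwa [← two_mul] at h1
  have hbase : Gd 𝒜 (1 : W.H Z) ([] ++ (⟨t', z, x, 0⟩ : PL W A) :: [⟨t', z', x', 0⟩]) := by
    intro V f g
    rw [map_one, one_mul, List.nil_append, pword_cons, pword_cons, pword_nil, mul_one]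
    change oval (g t' 0) x * oval (g t' 0) x' ∈ 𝒜 V
    cases g t' 0 with
    | none =>
      change (0 : W.H V) * 0 ∈ 𝒜 V
      rw [mul_zero]
      exact Submodule.zero_mem _
    | some j =>
      change W.map j x * W.map j x' ∈ 𝒜 V
      rw [← map_mul]
      exact h𝒜.map j _ hxx
  have h1 := unmerge (F := F) (γ := γ) (τ := τ) h𝒜 ha hw hw0 hm (D₁ := [])
    (e := ⟨t', z, x, 0⟩) (fun e he => absurd he List.not_mem_nil) (fun e he => by
      rw [List.mem_singleton.1 he]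
      exact ⟨hcz', hx', hg'⟩) ⟨hcz, hx, hg⟩ (fun e he => absurd he List.not_mem_nil)
    (fun e he _ _ => by
      rw [List.mem_singleton.1 he]
      exact hzz) hbase 1
  let g : Pm A V := fun s c => if H : t' = s ∧ 1 = c then
      some (Eq.rec (motive := fun s _ => (V ⟶ A s)) j H.1) else
        if H : t' = s ∧ 0 = c then
      some (Eq.rec (motive := fun s _ => (V ⟶ A s)) j' H.1) else none
  have h2 := h1 V f g
  have hg1 : g t' 1 = some j := dif_pos ⟨rfl, rfl⟩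
  have hg0 : g t' 0 = some j' := by
    have h3 : g t' 0 = if H : t' = t' ∧ 0 = 0 then
      some (Eq.rec (motive := fun s _ => (V ⟶ A s)) j' H.1) else none := dif_neg (by
        rintro ⟨_, h⟩
        exact one_ne_zero h)
    rw [h3, dif_pos ⟨rfl, rfl⟩]
  rw [map_one, one_mul, List.nil_append, pword_cons, pword_cons, pword_nil, mul_one] at h2
  change oval (g t' 1) x * oval (g t' 0) x' ∈ 𝒜 V at h2
  rw [hg1, hg0] at h2
  exact h2

end Pool.Agent.H27.Ab
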